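import Mathlib

set_option autoImplicit false

open Set

/-!
# The oscillating spectrum of a subspace of `C[0,1]`
-/

namespace Pool.Agent.R279.OS

/-- the interval `I(t,d) = [0,1] ∩ [t-d,t+d]` -/
def nbhd (t : unitInterval) (d : ℝ) : Set unitInterval := {s | |(s:ℝ) - (t:ℝ)| ≤ d}

/-- the oscillation of `f` on `I` -/
noncomputable def osc (f : C(unitInterval, ℝ)) (I : Set unitInterval) : ℝ :=
  sSup {r : ℝ | ∃ s ∈ I, ∃ t ∈ I, r = |f s - f t|}

/-- the number `Γ_X(t)` -/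
noncomputable def Gam (X : Submodule ℝ C(unitInterval, ℝ)) (t : unitInterval) : ℝ :=
  sSup {a : ℝ | 0 ≤ a ∧ ∀ d : ℝ, 0 < d → ∃ f ∈ X, ‖f‖ = 1 ∧ a < osc f (nbhd t d)}

/-- the oscillating spectrum `Ω(X)` -/
def Omega (X : Submodule ℝ C(unitInterval, ℝ)) : Set unitInterval := {t | 0 < Gam X t}

/-- `X` is complemented in `C[0,1]`: it is the range of a bounded linear projection -/
def IsCompl (X : Submodule ℝ C(unitInterval, ℝ)) : Prop :=
  ∃ P : C(unitInterval, ℝ) →L[ℝ] C(unitInterval, ℝ), (∀ f, P f ∈ X) ∧ ∀ f ∈ X, P f = f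

end Pool.Agent.R279.OS
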