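import Mathlib
import Pool.Agent.R279.OS.Defs

set_option autoImplicit false

open Set Filter Topology

/-!
# Criteria for `Γ_X(t) > 0` and `Γ_X(t) = 0`
-/

namespace Pool.Agent.R279.OS

lemma nbhd_eq (t : unitInterval) (d : ℝ) : nbhd t d = Metric.closedBall t d := by
  ext s
  rw [Metric.mem_closedBall, Subtype.dist_eq, Real.dist_eq]
  rfl

lemma osc_bdd (f : C(unitInterval, ℝ)) (I : Set unitInterval) :
    BddAbove {r : ℝ | ∃ s ∈ I, ∃ t ∈ I, r = |f s - f t|} := by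
  refine ⟨2 * ‖f‖, ?_⟩
  rintro r ⟨s, -, t, -, rfl⟩
  have h1 := f.norm_coe_le_norm s
  have h2 := f.norm_coe_le_norm t
  rw [Real.norm_eq_abs] at h1 h2
  have := abs_sub (f s) (f t)
  linarith

lemma le_osc (f : C(unitInterval, ℝ)) {I : Set unitInterval} {p q : unitInterval} (hp : p ∈ I)
    (hq : q ∈ I) : |f p - f q| ≤ osc f I := le_csSup (osc_bdd f I) ⟨p, hp, q, hq, rfl⟩

lemma osc_le (f : C(unitInterval, ℝ)) {I : Set unitInterval} {c : ℝ} (hc : 0 ≤ c)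
    (h : ∀ p ∈ I, ∀ q ∈ I, |f p - f q| ≤ c) : osc f I ≤ c := by
  refine Real.sSup_le ?_ hc
  rintro r ⟨s, hs, t, ht, rfl⟩
  exact h s hs t ht

lemma gam_bdd (X : Submodule ℝ C(unitInterval, ℝ)) (t : unitInterval) :
    BddAbove {a : ℝ | 0 ≤ a ∧ ∀ d : ℝ, 0 < d → ∃ f ∈ X, ‖f‖ = 1 ∧ a < osc f (nbhd t d)} := by
  refine ⟨2, ?_⟩
  rintro a ⟨-, ha⟩
  obtain ⟨f, -, hf, h⟩ := ha 1 one_pos
  refine h.le.trans (osc_le f (by norm_num) fun p _ q _ => ?_)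
  have h1 := f.norm_coe_le_norm p
  have h2 := f.norm_coe_le_norm q
  rw [Real.norm_eq_abs] at h1 h2
  have := abs_sub (f p) (f q)
  linarith

lemma gam_pos (X : Submodule ℝ C(unitInterval, ℝ)) (t : unitInterval) {c C : ℝ} (hc : 0 < c) (hC : 0 < C)
    (h : ∀ d : ℝ, 0 < d → ∃ f ∈ X, ‖f‖ ≤ C ∧ ∃ p ∈ nbhd t d, ∃ q ∈ nbhd t d, c ≤ |f p - f q|) :
    t ∈ Omega X := by
  change 0 < Gam X t
  have h1 : c / (2 * C) ∈ {a : ℝ | 0 ≤ a ∧ ∀ d : ℝ, 0 < d → ∃ f ∈ X, ‖f‖ = 1 ∧ a < osc f (nbhd t d)} := by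
    refine ⟨by positivity, fun d hd => ?_⟩
    obtain ⟨f, hf, hfC, p, hp, q, hq, hpq⟩ := h d hd
    have hf0 : 0 < ‖f‖ := by
      rw [norm_pos_iff]
      rintro rfl
      simp at hpq
      linarith
    refine ⟨‖f‖⁻¹ • f, X.smul_mem _ hf, ?_, ?_⟩
    · rw [norm_smul, norm_inv, norm_norm, inv_mul_cancel₀ hf0.ne']
    · refine lt_of_lt_of_le ?_ (le_osc _ hp hq)
      have e1 : (‖f‖⁻¹ • f) p - (‖f‖⁻¹ • f) q = ‖f‖⁻¹ * (f p - f q) := by
        change ‖f‖⁻¹ * f p - ‖f‖⁻¹ * f q = _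
        ring
      rw [e1, abs_mul, abs_of_pos (inv_pos.mpr hf0)]
      calc c / (2 * C) < c / C := by
            rw [div_lt_div_iff₀ (by positivity) hC]
            nlinarith
        _ = C⁻¹ * c := by ring
        _ ≤ ‖f‖⁻¹ * |f p - f q| := by
            gcongr
  exact lt_of_lt_of_le (by positivity) (le_csSup (gam_bdd X t) h1)

lemma gam_zero (X : Submodule ℝ C(unitInterval, ℝ)) (t : unitInterval)
    (h : ∀ ε : ℝ, 0 < ε → ∃ d : ℝ, 0 < d ∧ ∀ f ∈ X, ‖f‖ = 1 → ∀ p ∈ nbhd t d, |f p - f t| ≤ ε) :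
    t ∉ Omega X := by
  intro hpos
  change 0 < Gam X t at hpos
  have hne : {a : ℝ | 0 ≤ a ∧ ∀ d : ℝ, 0 < d → ∃ f ∈ X, ‖f‖ = 1 ∧ a < osc f (nbhd t d)}.Nonempty := by
    by_contra hcon
    rw [not_nonempty_iff_eq_empty] at hcon
    unfold Gam at hpos
    rw [hcon, Real.sSup_empty] at hpos
    exact lt_irrefl _ hpos
  obtain ⟨a, ⟨-, ha⟩, ha0⟩ := exists_lt_of_lt_csSup hne hpos
  obtain ⟨d, hd, hd2⟩ := h (a / 2) (half_pos ha0)
  obtain ⟨f, hf, hf1, hf2⟩ := ha d hd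
  have h3 : osc f (nbhd t d) ≤ a := by
    refine osc_le f ha0.le fun p hp q hq => ?_
    have h4 := hd2 f hf hf1 p hp
    have h5 := hd2 f hf hf1 q hq
    have e : f p - f q = (f p - f t) - (f q - f t) := by ring
    rw [e]
    refine (abs_sub _ _).trans ?_
    linarith
  linarith

end Pool.Agent.R279.OS
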