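import Mathlib
import Pool.Agent.R279.HS.D

set_option autoImplicit false
set_option maxSynthPendingDepth 3

open Filter Topology Set
open scoped ZeroAtInfty

/-!
# A non-complemented subspace of `c₀`
-/

namespace Pool.Agent.R279.OS

lemma c0_le (y : C₀(ℕ, ℝ)) (k : ℕ) : |y k| ≤ ‖y‖ := by
  rw [← ZeroAtInftyContinuousMap.norm_toBCF_eq_norm]
  exact y.toBCF.norm_coe_le_norm k

lemma c0_norm_le (y : C₀(ℕ, ℝ)) {C : ℝ} (hC : 0 ≤ C) (h : ∀ k, |y k| ≤ C) : ‖y‖ ≤ C := by
  rw [← ZeroAtInftyContinuousMap.norm_toBCF_eq_norm]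
  exact (BoundedContinuousFunction.norm_le hC).mpr h

lemma c0_tendsto (y : C₀(ℕ, ℝ)) : Tendsto y atTop (𝓝 0) := by
  have := y.zero_at_infty'
  rw [cocompact_eq_cofinite, Nat.cofinite_eq_atTop] at this
  exact this

/-- the sup is attained -/
lemma c0_attain (y : C₀(ℕ, ℝ)) : ∃ k, |y k| = ‖y‖ := by
  rcases eq_or_ne y 0 with hy | hy
  · subst hy; exact ⟨0, by simp⟩
  have hpos : 0 < ‖y‖ := norm_pos_iff.mpr hy
  have h1 : ∀ᶠ k in atTop, |y k| < ‖y‖ / 2 := by
    have := (c0_tendsto y).abs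
    rw [abs_zero] at this
    exact this.eventually (gt_mem_nhds (half_pos hpos))
  obtain ⟨n, hn⟩ := eventually_atTop.mp h1
  by_contra hcon
  push Not at hcon
  have h2 : ∀ k, |y k| < ‖y‖ := fun k => lt_of_le_of_ne (c0_le y k) (hcon k)
  obtain ⟨k0, hk0⟩ : ∃ k0 ∈ Finset.range (n+1), ∀ k ∈ Finset.range (n+1), |y k| ≤ |y k0| :=
    Finset.exists_max_image _ _ ⟨0, Finset.mem_range.mpr (Nat.succ_pos n)⟩
  have h3 : ‖y‖ ≤ max (|y k0|) (‖y‖ / 2) := by
    refine c0_norm_le y (le_max_of_le_left (abs_nonneg _)) fun k => ?_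
    rcases lt_or_ge k n with h | h
    · exact le_max_of_le_left (hk0.2 k (Finset.mem_range.mpr (by omega)))
    · exact le_max_of_le_right (hn k h).le
  rcases le_max_iff.mp h3 with h | h
  · exact absurd (h2 k0) (not_lt.mpr h)
  · linarith

/-- a finitely supported sequence -/
noncomputable def ofFin (f : ℕ → ℝ) (h : (Function.support f).Finite) : C₀(ℕ, ℝ) where
  toFun := f
  continuous_toFun := continuous_of_discreteTopology
  zero_at_infty' := by
    rw [cocompact_eq_cofinite]
    refine tendsto_const_nhds.congr' ?_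
    rw [EventuallyEq, eventually_cofinite]
    refine h.subset fun k hk => ?_
    simp only [Function.mem_support]
    exact fun h => hk h.symm

/-- the index of the block `n`, position `s` -/
def code (n : ℕ) (s : Fin n → Bool) : ℕ := Encodable.encode (⟨n, s⟩ : Σ n : ℕ, (Fin n → Bool))

lemma code_inj {n m : ℕ} {s : Fin n → Bool} {t : Fin m → Bool} (h : code n s = code m t) : n = m := by
  have := Encodable.encode_injective h
  exact congrArg Sigma.fst this

lemma code_inj' (n : ℕ) : Function.Injective (code n) := by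
  intro s t h
  have := Encodable.encode_injective h
  exact eq_of_heq (Sigma.mk.inj_iff.mp this).2

/-- placing a vector in block `n` -/
noncomputable def blk (n : ℕ) : ((Fin n → Bool) → ℝ) →ₗ[ℝ] C₀(ℕ, ℝ) where
  toFun θ := ofFin (Function.extend (code n) θ 0) (by
    refine (Set.finite_range (code n)).subset fun k hk => ?_
    by_contra hcon
    apply hk
    rw [Function.extend_apply']
    · rfl
    · rintro ⟨s, hs⟩; exact hcon ⟨s, hs⟩)
  map_add' θ θ' := by
    ext k
    change Function.extend (code n) (θ + θ') 0 k = Function.extend (code n) θ 0 k + Function.extend (code n) θ' 0 k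
    by_cases h : ∃ s, code n s = k
    · obtain ⟨s, rfl⟩ := h
      rw [(code_inj' n).extend_apply, (code_inj' n).extend_apply, (code_inj' n).extend_apply]; rfl
    · rw [Function.extend_apply' _ _ _ h, Function.extend_apply' _ _ _ h, Function.extend_apply' _ _ _ h]
      simp
  map_smul' c θ := by
    ext k
    change Function.extend (code n) (c • θ) 0 k = c * Function.extend (code n) θ 0 k
    by_cases h : ∃ s, code n s = k
    · obtain ⟨s, rfl⟩ := h
      rw [(code_inj' n).extend_apply, (code_inj' n).extend_apply]; rfl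
    · rw [Function.extend_apply' _ _ _ h, Function.extend_apply' _ _ _ h]
      simp

lemma blk_code (n : ℕ) (θ : (Fin n → Bool) → ℝ) (s : Fin n → Bool) : blk n θ (code n s) = θ s :=
  (code_inj' n).extend_apply _ _ _

lemma blk_other (n : ℕ) (θ : (Fin n → Bool) → ℝ) (k : ℕ) (h : ¬ ∃ s, code n s = k) : blk n θ k = 0 :=
  Function.extend_apply' _ _ _ h

lemma blk_norm (n : ℕ) (θ : (Fin n → Bool) → ℝ) {C : ℝ} (hC : 0 ≤ C) (h : ∀ s, |θ s| ≤ C) :
    ‖blk n θ‖ ≤ C := by
  refine c0_norm_le _ hC fun k => ?_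
  by_cases hk : ∃ s, code n s = k
  · obtain ⟨s, rfl⟩ := hk
    rw [blk_code]; exact h s
  · rw [blk_other n θ k hk, abs_zero]; exact hC

/-- the sign of a bit -/
def sg (b : Bool) : ℝ := if b then 1 else -1

lemma abs_sg (b : Bool) : |sg b| = 1 := by
  cases b <;> simp [sg]

/-- the span of the Rademacher vectors in block `n` -/
def rad (n : ℕ) : Submodule ℝ ((Fin n → Bool) → ℝ) :=
  LinearMap.range ({ toFun := fun c s => ∑ i, c i * sg (s i)
                     map_add' := fun c c' => by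
                        funext s
                        simp [add_mul, Finset.sum_add_distrib]
                     map_smul' := fun a c => by
                        funext s
                        simp [Finset.mul_sum, mul_assoc] } : (Fin n → ℝ) →ₗ[ℝ] ((Fin n → Bool) → ℝ))

lemma mem_rad {n : ℕ} {θ : (Fin n → Bool) → ℝ} : θ ∈ rad n ↔ ∃ c : Fin n → ℝ, ∀ s, θ s = ∑ i, c i * sg (s i) := by
  constructor
  · rintro ⟨c, rfl⟩; exact ⟨c, fun s => rfl⟩
  · rintro ⟨c, hc⟩; exact ⟨c, funext fun s => (hc s).symm⟩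

/-- the `ℓ₁` norm of the coefficients -/
lemma coeff_le {n : ℕ} (c : Fin n → ℝ) {C : ℝ} (h : ∀ s : Fin n → Bool, |∑ i, c i * sg (s i)| ≤ C) :
    ∑ i, |c i| ≤ C := by
  have h1 := h (fun i => decide (0 ≤ c i))
  refine le_trans (le_of_eq ?_) ((le_abs_self _).trans h1)
  refine Finset.sum_congr rfl fun i _ => ?_
  by_cases hc : 0 ≤ c i
  · simp [sg, hc]
  · simp only [sg, hc, decide_false, Bool.false_eq_true, if_false]
    rw [abs_of_neg (not_le.mp hc)]; ring

/-- restriction to a block -/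
noncomputable def res (n : ℕ) : C₀(ℕ, ℝ) →ₗ[ℝ] ((Fin n → Bool) → ℝ) where
  toFun y s := y (code n s)
  map_add' _ _ := rfl
  map_smul' _ _ := rfl

/-- the subspace -/
noncomputable def YY : Submodule ℝ C₀(ℕ, ℝ) := ⨅ n, (rad n).comap (res n)

lemma mem_YY {y : C₀(ℕ, ℝ)} : y ∈ YY ↔ ∀ n, res n y ∈ rad n := by
  unfold YY; simp [Submodule.mem_iInf]

lemma YY_closed : IsClosed (YY : Set C₀(ℕ, ℝ)) := by
  have h1 : (YY : Set C₀(ℕ, ℝ)) = ⋂ n, (res n) ⁻¹' (rad n : Set _) := by
    ext y; simp [mem_YY]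
  rw [h1]
  refine isClosed_iInter fun n => ?_
  have h2 : Continuous (res n) := by
    refine continuous_pi fun s => ?_
    refine (LinearMap.mkContinuous (σ := RingHom.id ℝ)
      ({ toFun := fun y : C₀(ℕ, ℝ) => y (code n s), map_add' := fun _ _ => rfl, map_smul' := fun _ _ => rfl } :
        C₀(ℕ, ℝ) →ₗ[ℝ] ℝ) 1 (fun y => ?_)).continuous
    rw [one_mul]; exact c0_le y _
  exact (Submodule.closed_of_finiteDimensional (rad n)).preimage h2

lemma blk_mem {n : ℕ} {θ : (Fin n → Bool) → ℝ} (h : θ ∈ rad n) : blk n θ ∈ YY := by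
  rw [mem_YY]
  intro m
  by_cases hm : n = m
  · subst hm
    have : res n (blk n θ) = θ := funext fun s => blk_code n θ s
    rw [this]; exact h
  · have : res m (blk n θ) = 0 := by
      funext s
      refine blk_other n θ _ ?_
      rintro ⟨t, ht⟩
      exact hm (code_inj ht)
    rw [this]; exact zero_mem _

/-- `YY` is not complemented -/
theorem YY_not_compl (Q : C₀(ℕ, ℝ) →L[ℝ] C₀(ℕ, ℝ)) (h1 : ∀ y, Q y ∈ YY) (h2 : ∀ y ∈ YY, Q y = y) :
    False := by
  classical
  obtain ⟨n, hn⟩ := exists_nat_gt (((9/5) * ‖Q‖) ^ 2)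
  -- coefficients
  have hc : ∀ s : Fin n → Bool, ∃ c : Fin n → ℝ, ∀ s', Q (blk n (Pi.single s 1)) (code n s') =
      ∑ i, c i * sg (s' i) := by
    intro s
    have := mem_YY.mp (h1 (blk n (Pi.single s 1))) n
    exact mem_rad.mp this
  choose c hc using hc
  let τ : (Fin n → Bool) → ℕ → ℝ := fun s i => if h : i < n then c s ⟨i, h⟩ else 0
  have hQ : ∀ (θ : (Fin n → Bool) → ℝ) s', Q (blk n θ) (code n s') =
      ∑ i, (∑ s, θ s * c s i) * sg (s' i) := by
    intro θ s'
    have e1 : blk n θ = ∑ s, θ s • blk n (Pi.single s 1) := by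
      conv_lhs => rw [← Finset.univ_sum_single θ]
      rw [map_sum]
      refine Finset.sum_congr rfl fun s _ => ?_
      rw [← map_smul, ← Pi.single_smul, smul_eq_mul, mul_one]
    rw [e1, map_sum]
    have e2 : (∑ s, Q (θ s • blk n (Pi.single s 1))) (code n s') = ∑ s, θ s * Q (blk n (Pi.single s 1)) (code n s') := by
      have e3 : ∀ y : C₀(ℕ, ℝ), y (code n s') = res n y s' := fun y => rfl
      rw [e3, map_sum, Finset.sum_apply]
      refine Finset.sum_congr rfl fun s _ => ?_
      rw [map_smul, map_smul]; rfl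
    rw [e2]
    simp_rw [hc, Finset.mul_sum, Finset.sum_mul]
    rw [Finset.sum_comm]
    refine Finset.sum_congr rfl fun i _ => Finset.sum_congr rfl fun s _ => by ring
  have hsum : ∀ (g : Fin n → ℝ), ∑ i ∈ Finset.range n, (if h : i < n then g ⟨i, h⟩ else 0) = ∑ i, g i := by
    intro g
    rw [Finset.sum_range]
    refine Finset.sum_congr rfl fun i _ => ?_
    rw [dif_pos i.2]
  have h3 := HS.fin_ineq n τ ‖Q‖ (fun θ hθ => by
    have e1 : ∑ i ∈ Finset.range n, |∑ s, θ s * τ s i| = ∑ i : Fin n, |∑ s, θ s * c s i| := by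
      rw [Finset.sum_range]
      refine Finset.sum_congr rfl fun i _ => ?_
      congr 1
      refine Finset.sum_congr rfl fun s _ => ?_
      change θ s * (if h : (i:ℕ) < n then c s ⟨i, h⟩ else 0) = _
      rw [dif_pos i.2]
    rw [e1]
    refine coeff_le _ fun s' => ?_
    rw [← hQ]
    refine (c0_le _ _).trans ((Q.le_opNorm _).trans ?_)
    calc ‖Q‖ * ‖blk n θ‖ ≤ ‖Q‖ * 1 := by
          gcongr; exact blk_norm n θ zero_le_one hθ
      _ = ‖Q‖ := mul_one _)
  -- the diagonal
  have h4 : ∀ i : Fin n, ∑ s : Fin n → Bool, sg (s i) * c s i = 1 := by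
    intro i
    let θ : (Fin n → Bool) → ℝ := fun s => sg (s i)
    have hθ : θ ∈ rad n := mem_rad.mpr ⟨Pi.single i 1, fun s => by
      rw [Finset.sum_eq_single i]
      · simp [θ]
      · intro j _ hj; simp [hj]
      · intro h; exact absurd (Finset.mem_univ i) h⟩
    have e1 := h2 _ (blk_mem hθ)
    have e2 : ∀ s' : Fin n → Bool, ∑ j, ((∑ s, θ s * c s j) - (Pi.single i (1:ℝ) : Fin n → ℝ) j) * sg (s' j) = 0 := by
      intro s'
      have e3 := hQ θ s'
      rw [e1, blk_code] at e3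
      simp_rw [sub_mul]
      rw [Finset.sum_sub_distrib, ← e3, Finset.sum_eq_single i]
      · simp [θ]
      · intro j _ hj; simp [hj]
      · intro h; exact absurd (Finset.mem_univ i) h
    have e4 := coeff_le (C := 0) (fun j => (∑ s, θ s * c s j) - (Pi.single i (1:ℝ) : Fin n → ℝ) j)
      (fun s' => by rw [e2 s', abs_zero])
    have e5 : |(∑ s, θ s * c s i) - (Pi.single i (1:ℝ) : Fin n → ℝ) i| ≤ 0 :=
      (Finset.single_le_sum (f := fun j => |(∑ s, θ s * c s j) - (Pi.single i (1:ℝ) : Fin n → ℝ) j|)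
        (fun j _ => abs_nonneg _) (Finset.mem_univ i)).trans e4
    have e6 := abs_nonpos_iff.mp e5
    rw [Pi.single_eq_same, sub_eq_zero] at e6
    exact e6
  have h5 : (n:ℝ) ≤ (9/5) * √n * ‖Q‖ := by
    calc (n:ℝ) = ∑ i : Fin n, ∑ s : Fin n → Bool, sg (s i) * c s i := by
          simp_rw [h4]; simp
      _ ≤ ∑ i : Fin n, ∑ s : Fin n → Bool, |c s i| := by
          refine Finset.sum_le_sum fun i _ => Finset.sum_le_sum fun s _ => ?_
          refine (le_abs_self _).trans ?_
          rw [abs_mul, abs_sg, one_mul]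
      _ = ∑ s, ∑ i ∈ Finset.range n, |τ s i| := by
          rw [Finset.sum_comm]
          refine Finset.sum_congr rfl fun s _ => ?_
          rw [Finset.sum_range]
          refine Finset.sum_congr rfl fun i _ => ?_
          change _ = |if h : (i:ℕ) < n then c s ⟨i, h⟩ else 0|
          rw [dif_pos i.2]
      _ ≤ _ := h3
  have h8 : √(n:ℝ) * √(n:ℝ) = n := Real.mul_self_sqrt (Nat.cast_nonneg n)
  have hnpos : 0 < √(n:ℝ) := Real.sqrt_pos.mpr (lt_of_le_of_lt (sq_nonneg _) hn)
  have h9 : √(n:ℝ) ≤ (9/5) * ‖Q‖ := by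
    by_contra hcon
    push Not at hcon
    have h10 : √(n:ℝ) * ((9/5) * ‖Q‖) < √(n:ℝ) * √(n:ℝ) := mul_lt_mul_of_pos_left hcon hnpos
    rw [h8] at h10
    have : (9/5) * √(n:ℝ) * ‖Q‖ = √(n:ℝ) * ((9/5) * ‖Q‖) := by ring
    linarith
  have h10 : (n:ℝ) ≤ ((9/5) * ‖Q‖) ^ 2 := by
    rw [← h8, sq]
    exact mul_self_le_mul_self (Real.sqrt_nonneg _) h9
  linarith

end Pool.Agent.R279.OS
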