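import Mathlib
import Pool.Agent.R279.OS.Y

set_option autoImplicit false
set_option maxSynthPendingDepth 3

open Filter Topology Set
open scoped ZeroAtInfty

/-!
# Operators from `c₀` built from tent functions
-/

namespace Pool.Agent.R279.OS

/-- tent functions with disjoint supports accumulating at zero -/
noncomputable def th (k : ℕ) (s : ℝ) : ℝ := max 0 (1 - |4^(k+1) * s - 2|)

lemma th_nonneg (k : ℕ) (s : ℝ) : 0 ≤ th k s := le_max_left _ _

lemma th_le_one (k : ℕ) (s : ℝ) : th k s ≤ 1 := by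
  refine max_le zero_le_one ?_
  linarith [abs_nonneg (4^(k+1) * s - 2)]

lemma th_cont (k : ℕ) : Continuous (th k) := by
  unfold th; fun_prop

lemma th_ne {k : ℕ} {s : ℝ} (h : th k s ≠ 0) : 1 < 4^(k+1) * s ∧ 4^(k+1) * s < 3 := by
  have h1 : 0 < 1 - |4^(k+1) * s - 2| := by
    by_contra hcon
    exact h (max_eq_left (not_lt.mp hcon))
  have h2 : |4^(k+1) * s - 2| < 1 := by linarith
  obtain ⟨h3, h4⟩ := abs_lt.mp h2
  constructor <;> linarith

lemma th_lt {k j : ℕ} {s : ℝ} (h : k < j) (hk : th k s ≠ 0) : th j s = 0 := by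
  by_contra hj
  obtain ⟨h1, h2⟩ := th_ne hk
  obtain ⟨h3, h4⟩ := th_ne hj
  have h5 : (0:ℝ) < s := by
    by_contra hcon
    have : (4:ℝ)^(k+1) * s ≤ 0 := mul_nonpos_of_nonneg_of_nonpos (by positivity) (not_lt.mp hcon)
    linarith
  have h6 : (4:ℝ)^(k+1) * 4 ≤ 4^(j+1) := by
    rw [← pow_succ]
    exact pow_le_pow_right₀ (by norm_num) (by omega)
  nlinarith

lemma th_disj {k j : ℕ} {s : ℝ} (hk : th k s ≠ 0) (hj : th j s ≠ 0) : k = j := by
  rcases lt_trichotomy k j with h | h | h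
  · exact absurd (th_lt h hk) hj
  · exact h
  · exact absurd (th_lt h hj) hk

lemma th_zero (k : ℕ) {s : ℝ} (hs : s ≤ 0) : th k s = 0 := by
  by_contra h
  have h1 := (th_ne h).1
  have : (4:ℝ)^(k+1) * s ≤ 0 := mul_nonpos_of_nonneg_of_nonpos (by positivity) hs
  linarith

lemma th_big (k : ℕ) {s : ℝ} (hs : 1 ≤ s) : th k s = 0 := by
  by_contra h
  have h1 := (th_ne h).2
  have h2 : (4:ℝ) ≤ 4^(k+1) := by
    calc (4:ℝ) = 4^1 := by norm_num
      _ ≤ 4^(k+1) := pow_le_pow_right₀ (by norm_num) (by omega)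
  nlinarith

/-- the peaks -/
noncomputable def pk (k : ℕ) : ℝ := 2 / 4^(k+1)

lemma th_pk (k : ℕ) : th k (pk k) = 1 := by
  unfold th pk
  rw [mul_div_cancel₀ _ (by positivity)]
  simp

lemma pk_pos (k : ℕ) : 0 < pk k := by unfold pk; positivity

lemma pk_lt (k : ℕ) : pk k < 1 := by
  unfold pk
  rw [div_lt_one (by positivity)]
  calc (2:ℝ) < 4^1 := by norm_num
    _ ≤ 4^(k+1) := pow_le_pow_right₀ (by norm_num) (by omega)

lemma pk_tendsto : Tendsto pk atTop (𝓝 0) := by
  have h1 : pk = fun k => (1/2) * (1/4 : ℝ)^k := by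
    funext k
    unfold pk
    rw [pow_succ, one_div_pow]
    field_simp
    norm_num
  rw [h1]
  have := (tendsto_pow_atTop_nhds_zero_of_lt_one (by norm_num : (0:ℝ) ≤ 1/4) (by norm_num)).const_mul (1/2)
  rwa [mul_zero] at this

lemma th_small {c : ℝ} (hc : 0 < c) : ∃ k0 : ℕ, ∀ k ≥ k0, ∀ s ≥ c, th k s = 0 := by
  obtain ⟨k0, hk0⟩ := pow_unbounded_of_one_lt (3 / c) (by norm_num : (1:ℝ) < 4)
  refine ⟨k0, fun k hk s hs => ?_⟩
  by_contra h
  have h1 := (th_ne h).2
  have h2 : (4:ℝ)^k0 ≤ 4^(k+1) := pow_le_pow_right₀ (by norm_num) (by omega)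
  have h3 : 3 < 4^k0 * c := by rwa [div_lt_iff₀ hc] at hk0
  have h4 : (4:ℝ)^k0 * c ≤ 4^(k+1) * s := mul_le_mul h2 hs hc.le (by positivity)
  linarith

open Classical in
/-- the function `Θ_y` -/
noncomputable def Th (y : C₀(ℕ, ℝ)) (s : ℝ) : ℝ :=
  if h : ∃ k, th k s ≠ 0 then y h.choose * th h.choose s else 0

lemma Th_of_ne (y : C₀(ℕ, ℝ)) {k : ℕ} {s : ℝ} (h : th k s ≠ 0) : Th y s = y k * th k s := by
  have h' : ∃ k, th k s ≠ 0 := ⟨k, h⟩
  have e := th_disj h'.choose_spec h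
  unfold Th
  rw [dif_pos h', e]

lemma Th_of_all (y : C₀(ℕ, ℝ)) {s : ℝ} (h : ∀ k, th k s = 0) : Th y s = 0 := by
  unfold Th
  rw [dif_neg]
  push Not
  exact h

lemma Th_le (y : C₀(ℕ, ℝ)) (s : ℝ) : |Th y s| ≤ ‖y‖ := by
  by_cases h : ∃ k, th k s ≠ 0
  · obtain ⟨k, hk⟩ := h
    rw [Th_of_ne y hk, abs_mul, abs_of_nonneg (th_nonneg k s)]
    calc |y k| * th k s ≤ ‖y‖ * 1 := mul_le_mul (c0_le y k) (th_le_one k s) (th_nonneg k s) (norm_nonneg _)
      _ = ‖y‖ := mul_one _
  · push Not at h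
    rw [Th_of_all y h, abs_zero]; exact norm_nonneg _

lemma Th_add (y z : C₀(ℕ, ℝ)) (s : ℝ) : Th (y + z) s = Th y s + Th z s := by
  by_cases h : ∃ k, th k s ≠ 0
  · obtain ⟨k, hk⟩ := h
    rw [Th_of_ne _ hk, Th_of_ne _ hk, Th_of_ne _ hk]
    change (y k + z k) * _ = _
    ring
  · push Not at h
    rw [Th_of_all _ h, Th_of_all _ h, Th_of_all _ h, add_zero]

lemma Th_smul (c : ℝ) (y : C₀(ℕ, ℝ)) (s : ℝ) : Th (c • y) s = c * Th y s := by
  by_cases h : ∃ k, th k s ≠ 0
  · obtain ⟨k, hk⟩ := h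
    rw [Th_of_ne _ hk, Th_of_ne _ hk]
    change (c * y k) * _ = _
    ring
  · push Not at h
    rw [Th_of_all _ h, Th_of_all _ h, mul_zero]

lemma Th_zero (y : C₀(ℕ, ℝ)) {s : ℝ} (hs : s ≤ 0) : Th y s = 0 := Th_of_all y fun k => th_zero k hs

lemma Th_big (y : C₀(ℕ, ℝ)) {s : ℝ} (hs : 1 ≤ s) : Th y s = 0 := Th_of_all y fun k => th_big k hs

lemma Th_pk (y : C₀(ℕ, ℝ)) (k : ℕ) : Th y (pk k) = y k := by
  rw [Th_of_ne y (k := k) (by rw [th_pk]; exact one_ne_zero), th_pk, mul_one]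

/-- finite partial sums -/
lemma Th_partial (y : C₀(ℕ, ℝ)) (n : ℕ) (s : ℝ) {ε : ℝ} (hε : 0 ≤ ε) (h : ∀ k ≥ n, |y k| ≤ ε) :
    |Th y s - ∑ k ∈ Finset.range n, y k * th k s| ≤ ε := by
  by_cases hex : ∃ k, th k s ≠ 0
  · obtain ⟨k, hk⟩ := hex
    have hz : ∀ j, j ≠ k → y j * th j s = 0 := fun j hj => by
      have : th j s = 0 := by
        by_contra hne
        exact hj (th_disj hne hk)
      rw [this, mul_zero]
    rw [Th_of_ne y hk]
    rcases lt_or_ge k n with hkn | hkn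
    · rw [Finset.sum_eq_single k (fun j _ hj => hz j hj) (fun hne => absurd (Finset.mem_range.mpr hkn) hne),
        sub_self, abs_zero]
      exact hε
    · rw [Finset.sum_eq_zero (fun j hj => hz j (by have := Finset.mem_range.mp hj; omega)), sub_zero, abs_mul,
        abs_of_nonneg (th_nonneg k s)]
      calc |y k| * th k s ≤ ε * 1 := mul_le_mul (h k hkn) (th_le_one k s) (th_nonneg k s) hε
        _ = ε := mul_one _
  · push Not at hex
    rw [Th_of_all y hex, Finset.sum_eq_zero (fun j _ => by rw [hex j, mul_zero]), sub_zero, abs_zero]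
    exact hε

lemma Th_cont (y : C₀(ℕ, ℝ)) : Continuous (Th y) := by
  refine continuous_of_uniform_approx_of_continuous fun u hu => ?_
  obtain ⟨ε, hε, hu⟩ := Metric.mem_uniformity_dist.mp hu
  have h1 : ∀ᶠ k in atTop, |y k| < ε / 2 := by
    have := (c0_tendsto y).abs
    rw [abs_zero] at this
    exact this.eventually (gt_mem_nhds (half_pos hε))
  obtain ⟨n, hn⟩ := eventually_atTop.mp h1
  refine ⟨fun s => ∑ k ∈ Finset.range n, y k * th k s, ?_, fun s => hu ?_⟩
  · exact continuous_finsetSum _ fun k _ => continuous_const.mul (th_cont k)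
  · rw [Real.dist_eq]
    have := Th_partial y n s (half_pos hε).le (fun k hk => (hn k hk).le)
    linarith

/-- equicontinuity away from zero -/
lemma Th_equi {c : ℝ} (hc : 0 < c) {ε : ℝ} (hε : 0 < ε) :
    ∀ᶠ s in 𝓝 c, ∀ y : C₀(ℕ, ℝ), |Th y s - Th y c| ≤ ε * ‖y‖ := by
  obtain ⟨k0, hk0⟩ := th_small (half_pos hc)
  have hfin : ∀ s ≥ c / 2, ∀ y : C₀(ℕ, ℝ), Th y s = ∑ k ∈ Finset.range k0, y k * th k s := by
    intro s hs y
    by_cases hex : ∃ k, th k s ≠ 0
    · obtain ⟨k, hk⟩ := hex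
      have hkn : k < k0 := by
        by_contra hcon
        exact hk (hk0 k (not_lt.mp hcon) s hs)
      rw [Th_of_ne y hk, Finset.sum_eq_single k]
      · intro j _ hj
        have : th j s = 0 := by
          by_contra hne
          exact hj (th_disj hne hk)
        rw [this, mul_zero]
      · intro h; exact absurd (Finset.mem_range.mpr hkn) h
    · push Not at hex
      rw [Th_of_all y hex, Finset.sum_eq_zero (fun j _ => by rw [hex j, mul_zero])]
  have h1 : Tendsto (fun s => ∑ k ∈ Finset.range k0, |th k s - th k c|) (𝓝 c) (𝓝 0) := by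
    have h2 : Continuous (fun s => ∑ k ∈ Finset.range k0, |th k s - th k c|) :=
      continuous_finsetSum _ fun k _ => ((th_cont k).sub continuous_const).abs
    have := h2.tendsto c
    simpa using this
  filter_upwards [h1.eventually (gt_mem_nhds hε), eventually_ge_nhds (by linarith : c / 2 < c)] with s hs1 hs2 y
  rw [hfin s hs2 y, hfin c (by linarith) y, ← Finset.sum_sub_distrib]
  refine (Finset.abs_sum_le_sum_abs _ _).trans ?_
  calc ∑ k ∈ Finset.range k0, |y k * th k s - y k * th k c|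
      ≤ ∑ k ∈ Finset.range k0, ‖y‖ * |th k s - th k c| := by
        refine Finset.sum_le_sum fun k _ => ?_
        rw [← mul_sub, abs_mul]
        exact mul_le_mul_of_nonneg_right (c0_le y k) (abs_nonneg _)
    _ = (∑ k ∈ Finset.range k0, |th k s - th k c|) * ‖y‖ := by rw [← Finset.mul_sum, mul_comm]
    _ ≤ ε * ‖y‖ := by gcongr

/-- the operator `y ↦ Θ_y ∘ D` -/
noncomputable def AA (D : C(unitInterval, ℝ)) : C₀(ℕ, ℝ) →L[ℝ] C(unitInterval, ℝ) :=
  LinearMap.mkContinuous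
    { toFun := fun y => ⟨fun t => Th y (D t), (Th_cont y).comp D.continuous⟩
      map_add' := fun y z => by ext t; exact Th_add y z _
      map_smul' := fun c y => by ext t; exact Th_smul c y _ } 1 (fun y => by
        rw [one_mul, ContinuousMap.norm_le _ (norm_nonneg _)]
        exact fun t => Th_le y _)

lemma AA_apply (D : C(unitInterval, ℝ)) (y : C₀(ℕ, ℝ)) (t : unitInterval) : AA D y t = Th y (D t) := rfl

lemma AA_norm (D : C(unitInterval, ℝ)) : ‖AA D‖ ≤ 1 := LinearMap.mkContinuous_norm_le _ zero_le_one _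

/-- the weights -/
noncomputable def wt (m : ℕ) : ℝ := (1/16)^m

lemma wt_pos (m : ℕ) : 0 < wt m := by unfold wt; positivity

lemma wt_summable : Summable wt := summable_geometric_of_lt_one (by norm_num) (by norm_num)

lemma wt_tail (n : ℕ) : ∑' m, wt (m + n) = wt n * (16/15) := by
  have : ∀ m, wt (m + n) = wt n * (1/16)^m := fun m => by unfold wt; rw [pow_add]; ring
  simp_rw [this]
  rw [tsum_mul_left, tsum_geometric_of_lt_one (by norm_num) (by norm_num)]
  norm_num

/-- the operator `T₂` -/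
noncomputable def T2 (D : ℕ → C(unitInterval, ℝ)) : C₀(ℕ, ℝ) →L[ℝ] C(unitInterval, ℝ) :=
  ∑' m, wt m • AA (D m)

lemma T2_summable (D : ℕ → C(unitInterval, ℝ)) : Summable fun m => wt m • AA (D m) := by
  refine Summable.of_norm_bounded wt_summable fun m => ?_
  rw [norm_smul, Real.norm_of_nonneg (wt_pos m).le]
  exact mul_le_of_le_one_right (wt_pos m).le (AA_norm _)

lemma wt_mul_summable {a : ℕ → ℝ} {B : ℝ} (ha : ∀ m, |a m| ≤ B) : Summable fun m => wt m * a m := by
  refine Summable.of_norm_bounded (wt_summable.mul_right B) fun m => ?_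
  rw [norm_mul, Real.norm_of_nonneg (wt_pos m).le, Real.norm_eq_abs]
  exact mul_le_mul_of_nonneg_left (ha m) (wt_pos m).le

lemma T2_apply (D : ℕ → C(unitInterval, ℝ)) (y : C₀(ℕ, ℝ)) (t : unitInterval) :
    T2 D y t = ∑' m, wt m * Th y (D m t) := by
  have h1 := (T2_summable D).hasSum
  have h2 := h1.mapL (ContinuousLinearMap.apply ℝ C(unitInterval, ℝ) y)
  have h3 := h2.mapL (ContinuousMap.evalCLM ℝ t : C(unitInterval, ℝ) →L[ℝ] ℝ)
  exact h3.tsum_eq.symm

lemma tail_le {a : ℕ → ℝ} {B : ℝ} (ha : ∀ m, |a m| ≤ B) (n : ℕ) :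
    |∑' m, wt (m + n) * a (m + n)| ≤ wt n * (16/15) * B := by
  have hs : Summable fun m => wt m * a m := wt_mul_summable ha
  have hs' : Summable fun m => wt (m + n) * a (m + n) := (summable_nat_add_iff n).mpr hs
  have hw : Summable fun m => wt (m + n) * B := ((summable_nat_add_iff n).mpr wt_summable).mul_right B
  rw [← wt_tail n, ← tsum_mul_right]
  have h1 : ∀ m, |wt (m + n) * a (m + n)| ≤ wt (m + n) * B := fun m => by
    rw [abs_mul, abs_of_pos (wt_pos _)]
    exact mul_le_mul_of_nonneg_left (ha _) (wt_pos _).le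
  have h2 := norm_tsum_le_tsum_norm (hs'.norm)
  refine h2.trans (hs'.norm.tsum_le_tsum h1 hw)

/-- splitting off the first terms, when they vanish -/
lemma split_first {a : ℕ → ℝ} {B : ℝ} (ha : ∀ m, |a m| ≤ B) {n : ℕ} (h0 : ∀ m < n, a m = 0) :
    |(∑' m, wt m * a m) - wt n * a n| ≤ wt n * B / 15 := by
  have hs : Summable fun m => wt m * a m := wt_mul_summable ha
  have h1 := hs.sum_add_tsum_nat_add (n + 1)
  rw [Finset.sum_range_succ, Finset.sum_eq_zero (fun m hm => by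
    rw [h0 m (Finset.mem_range.mp hm), mul_zero]), zero_add] at h1
  rw [← h1, add_sub_cancel_left]
  refine (tail_le ha (n + 1)).trans (le_of_eq ?_)
  unfold wt
  rw [pow_succ]; ring

end Pool.Agent.R279.OS
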