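import Mathlib
import Pool.Agent.R279.OS.Th
import Pool.Agent.R279.OS.Gam

set_option autoImplicit false
set_option maxSynthPendingDepth 3

open Filter Topology Set
open scoped ZeroAtInfty

/-!
# The subspace and its oscillating spectrum
-/

namespace Pool.Agent.R279.OS

/-- the data of the construction -/
structure Dta where
  σ : C(unitInterval, unitInterval)
  φ : C(unitInterval, ℝ)
  D : ℕ → C(unitInterval, ℝ)
  E : Submodule ℝ C(unitInterval, ℝ)
  U : Set unitInterval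
  hE : IsClosed (E : Set C(unitInterval, ℝ))
  hφ0 : ∀ t, 0 ≤ φ t
  hφ1 : ∀ t, φ t ≤ 1/4
  hφU : ∀ t ∉ U, φ t = 0
  E0 : ∀ x ∈ E, x 1 = 0
  E1 : ∀ x ∈ E, ∃ p, |x (σ p)| = ‖x‖ ∧ 1 ≤ D 0 p
  E2 : ∀ p, D 0 p < 1 → σ p = 1
  E3 : ∀ t ∉ U, ∀ᶠ s in 𝓝 t, σ s = 1
  E4 : ∀ t ∈ U, ∃ c > 0, ∀ d : ℝ, 0 < d → ∃ x ∈ E, ‖x‖ ≤ 1 ∧ ∃ p ∈ nbhd t d, ∃ q ∈ nbhd t d,
    c ≤ |(x (σ p) + φ p * x p) - (x (σ q) + φ q * x q)|
  D0 : ∀ m t, 0 ≤ D m t
  D1 : ∀ m t, D m t = 0 → D (m+1) t = 0
  D2 : ∀ m t, D m t = 0 → ∀ d : ℝ, 0 < d → ∃ p ∈ nbhd t d, 0 < D m p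
  D3 : ∀ v : ℝ, 0 ≤ v → v ≤ 1 → ∃ p, D 0 p = v

namespace Dta

variable (S : Dta)

/-- the operator `T₁` -/
noncomputable def T1 : C(unitInterval, ℝ) →L[ℝ] C(unitInterval, ℝ) :=
  LinearMap.mkContinuous
    { toFun := fun x => x.comp S.σ + S.φ * x
      map_add' := fun x y => by
        ext t
        simp only [ContinuousMap.add_apply, ContinuousMap.comp_apply, ContinuousMap.mul_apply]
        ring
      map_smul' := fun c x => by
        ext t
        simp only [ContinuousMap.add_apply, ContinuousMap.comp_apply, ContinuousMap.mul_apply,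
          ContinuousMap.smul_apply, smul_eq_mul, RingHom.id_apply]
        ring } 2 (fun x => by
      rw [ContinuousMap.norm_le _ (by positivity)]
      intro t
      change ‖x (S.σ t) + S.φ t * x t‖ ≤ _
      refine (norm_add_le _ _).trans ?_
      rw [norm_mul, Real.norm_of_nonneg (S.hφ0 t)]
      have h1 := x.norm_coe_le_norm (S.σ t)
      have h2 := x.norm_coe_le_norm t
      have h3 := S.hφ1 t
      have h4 := S.hφ0 t
      nlinarith [norm_nonneg (x t), norm_nonneg x])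

lemma T1_apply (x : C(unitInterval, ℝ)) (t : unitInterval) : S.T1 x t = x (S.σ t) + S.φ t * x t := rfl

lemma T1_norm (x : C(unitInterval, ℝ)) : ‖S.T1 x‖ ≤ 2 * ‖x‖ := by
  have h := LinearMap.mkContinuous_norm_le
    ({ toFun := fun x => x.comp S.σ + S.φ * x
       map_add' := fun x y => by
        ext t
        simp only [ContinuousMap.add_apply, ContinuousMap.comp_apply, ContinuousMap.mul_apply]
        ring
       map_smul' := fun c x => by
        ext t
        simp only [ContinuousMap.add_apply, ContinuousMap.comp_apply, ContinuousMap.mul_apply,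
          ContinuousMap.smul_apply, smul_eq_mul, RingHom.id_apply]
        ring } : C(unitInterval, ℝ) →ₗ[ℝ] C(unitInterval, ℝ)) (C := 2) (by norm_num) (fun x => by
      rw [ContinuousMap.norm_le _ (by positivity)]
      intro t
      change ‖x (S.σ t) + S.φ t * x t‖ ≤ _
      refine (norm_add_le _ _).trans ?_
      rw [norm_mul, Real.norm_of_nonneg (S.hφ0 t)]
      have h1 := x.norm_coe_le_norm (S.σ t)
      have h2 := x.norm_coe_le_norm t
      have h3 := S.hφ1 t
      have h4 := S.hφ0 t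
      nlinarith [norm_nonneg (x t), norm_nonneg x])
  exact (S.T1.le_opNorm x).trans (mul_le_mul_of_nonneg_right h (norm_nonneg _))

/-- the lower estimate -/
lemma lower {x : C(unitInterval, ℝ)} (hx : x ∈ S.E) (y : C₀(ℕ, ℝ)) :
    ‖x‖ + ‖y‖ ≤ 4 * ‖S.T1 x + T2 S.D y‖ := by
  set f := S.T1 x + T2 S.D y with hf
  have hfp : ∀ p, f p = x (S.σ p) + S.φ p * x p + ∑' m, wt m * Th y (S.D m p) := by
    intro p
    rw [hf, ContinuousMap.add_apply, T1_apply, T2_apply]
  have hφx : ∀ p, |S.φ p * x p| ≤ ‖x‖ / 4 := by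
    intro p
    rw [abs_mul, abs_of_nonneg (S.hφ0 p)]
    have h1 := x.norm_coe_le_norm p
    rw [Real.norm_eq_abs] at h1
    calc S.φ p * |x p| ≤ (1/4) * ‖x‖ := mul_le_mul (S.hφ1 p) h1 (abs_nonneg _) (by norm_num)
      _ = ‖x‖ / 4 := by ring
  have hsp : ∀ p, |(∑' m, wt m * Th y (S.D m p)) - Th y (S.D 0 p)| ≤ ‖y‖ / 15 := by
    intro p
    have := split_first (a := fun m => Th y (S.D m p)) (B := ‖y‖) (fun m => Th_le y _) (n := 0)
      (fun m hm => absurd hm (Nat.not_lt_zero m))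
    have e : wt 0 = 1 := by unfold wt; norm_num
    rw [e, one_mul, one_mul] at this
    exact this
  have hfn : ∀ p, |f p| ≤ ‖f‖ := fun p => f.norm_coe_le_norm p
  -- first point
  obtain ⟨p, hp1, hp2⟩ := S.E1 x hx
  have h1 : ‖x‖ - ‖x‖ / 4 - ‖y‖ / 15 ≤ ‖f‖ := by
    have h2 := hsp p
    rw [Th_big y hp2, sub_zero] at h2
    have h3 := hφx p
    have h4 := hfn p
    have h5 : |x (S.σ p)| ≤ |f p| + |S.φ p * x p| + |∑' m, wt m * Th y (S.D m p)| := by
      have e : x (S.σ p) = f p - S.φ p * x p - ∑' m, wt m * Th y (S.D m p) := by rw [hfp p]; ring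
      rw [e]
      refine (abs_sub _ _).trans ?_
      have := abs_sub (f p) (S.φ p * x p)
      linarith
    linarith
  obtain ⟨k, hk⟩ := c0_attain y
  obtain ⟨q, hq⟩ := S.D3 (pk k) (pk_pos k).le (pk_lt k).le
  have h6 : ‖y‖ - ‖x‖ / 4 - ‖y‖ / 15 ≤ ‖f‖ := by
    have h2 := hsp q
    rw [hq, Th_pk] at h2
    have h3 := hφx q
    have h4 := hfn q
    have h7 : x (S.σ q) = 0 := by rw [S.E2 q (by rw [hq]; exact pk_lt k)]; exact S.E0 x hx
    have h5 : |y k| ≤ |f q| + |S.φ q * x q| + |(∑' m, wt m * Th y (S.D m q)) - y k| := by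
      have e : y k = f q - S.φ q * x q - ((∑' m, wt m * Th y (S.D m q)) - y k) := by
        rw [hfp q, h7]; ring
      conv_lhs => rw [e]
      refine (abs_sub _ _).trans ?_
      have := abs_sub (f q) (S.φ q * x q)
      linarith
    linarith
  linarith [norm_nonneg x, norm_nonneg y]

/-- the embedding -/
noncomputable def T : (S.E × YY) →L[ℝ] C(unitInterval, ℝ) :=
  (S.T1.comp S.E.subtypeL).coprod ((T2 S.D).comp YY.subtypeL)

lemma T_apply (z : S.E × YY) : S.T z = S.T1 z.1 + T2 S.D z.2 := rfl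

lemma T_lower (z : S.E × YY) : ‖z‖ ≤ 4 * ‖S.T z‖ := by
  have h := S.lower z.1.2 z.2
  rw [T_apply]
  have h1 : ‖z‖ = max ‖z.1‖ ‖z.2‖ := Prod.norm_def z
  rw [h1]
  refine max_le ?_ ?_
  · refine le_trans ?_ h
    exact le_add_of_nonneg_right (norm_nonneg _)
  · refine le_trans ?_ h
    exact le_add_of_nonneg_left (norm_nonneg _)

/-- the subspace -/
noncomputable def X : Submodule ℝ C(unitInterval, ℝ) := S.T.range

lemma mem_X {f : C(unitInterval, ℝ)} : f ∈ S.X ↔ ∃ z : S.E × YY, S.T z = f := LinearMap.mem_range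

lemma X_closed : IsClosed (S.X : Set C(unitInterval, ℝ)) := by
  have hE : CompleteSpace S.E := S.hE.completeSpace_coe
  have hY : CompleteSpace YY := YY_closed.completeSpace_coe
  have h1 : AntilipschitzWith 4 S.T := AddMonoidHomClass.antilipschitz_of_bound S.T fun z => by
    exact S.T_lower z
  have h2 := h1.isClosed_range S.T.uniformContinuous
  have h3 : (S.X : Set C(unitInterval, ℝ)) = Set.range S.T := by
    ext f; exact S.mem_X
  rw [h3]; exact h2

lemma T_inj : Function.Injective S.T := by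
  intro z w h
  have h1 := S.T_lower (z - w)
  rw [map_sub, h, sub_self, norm_zero, mul_zero] at h1
  exact sub_eq_zero.mp (norm_le_zero_iff.mp h1)

theorem X_not_compl : ¬ IsCompl S.X := by
  rintro ⟨P, hP1, hP2⟩
  let e : (S.E × YY) ≃ₗ[ℝ] S.X := LinearEquiv.ofInjective (S.T : (S.E × YY) →ₗ[ℝ] C(unitInterval, ℝ)) S.T_inj
  have he : ∀ z, ((e z : S.X) : C(unitInterval, ℝ)) = S.T z := fun z => rfl
  let PT : C₀(ℕ, ℝ) →ₗ[ℝ] S.X :=
    LinearMap.codRestrict S.X ((P : C(unitInterval, ℝ) →ₗ[ℝ] C(unitInterval, ℝ)) ∘ₗ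
      (T2 S.D : C₀(ℕ, ℝ) →ₗ[ℝ] C(unitInterval, ℝ))) (fun y => hP1 _)
  let Q : C₀(ℕ, ℝ) →L[ℝ] C₀(ℕ, ℝ) := LinearMap.mkContinuous
    (YY.subtype ∘ₗ LinearMap.snd ℝ S.E YY ∘ₗ e.symm.toLinearMap ∘ₗ PT) (4 * (‖P‖ * ‖T2 S.D‖)) (fun y => by
      change ‖(e.symm (PT y)).2‖ ≤ _
      have h1 := S.T_lower (e.symm (PT y))
      have h2 : S.T (e.symm (PT y)) = P (T2 S.D y) := by
        rw [← he, e.apply_symm_apply]; rfl
      rw [h2] at h1
      have h3 : ‖(e.symm (PT y)).2‖ ≤ ‖e.symm (PT y)‖ := norm_snd_le _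
      calc ‖(e.symm (PT y)).2‖ ≤ 4 * ‖P (T2 S.D y)‖ := h3.trans h1
        _ ≤ 4 * (‖P‖ * (‖T2 S.D‖ * ‖y‖)) := by
            gcongr
            exact (P.le_opNorm _).trans (mul_le_mul_of_nonneg_left ((T2 S.D).le_opNorm y) (norm_nonneg _))
        _ = _ := by ring)
  refine YY_not_compl Q (fun y => (e.symm (PT y)).2.2) (fun y hy => ?_)
  change (((e.symm (PT y)).2 : YY) : C₀(ℕ, ℝ)) = y
  have h1 : e (0, ⟨y, hy⟩) = PT y := by
    apply Subtype.ext
    rw [he, T_apply]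
    change S.T1 0 + T2 S.D y = P (T2 S.D y)
    rw [map_zero, zero_add]
    refine (hP2 _ ?_).symm
    rw [mem_X]
    refine ⟨(0, ⟨y, hy⟩), ?_⟩
    rw [T_apply]
    change S.T1 0 + T2 S.D y = _
    rw [map_zero, zero_add]
  have h2 : e.symm (PT y) = (0, ⟨y, hy⟩) := by rw [← h1, e.symm_apply_apply]
  rw [h2]

/-! ## the spectrum -/

lemma T2_equi {t : unitInterval} (ht : ∀ m, 0 < S.D m t) {ε : ℝ} (hε : 0 < ε) :
    ∀ᶠ s in 𝓝 t, ∀ y : C₀(ℕ, ℝ), |T2 S.D y s - T2 S.D y t| ≤ ε * ‖y‖ := by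
  obtain ⟨n, hn⟩ : ∃ n, wt n * (16/15) * 2 < ε / 2 := by
    have h1 : Tendsto (fun n => wt n * (16/15) * 2) atTop (𝓝 (0 * (16/15) * 2)) :=
      ((tendsto_pow_atTop_nhds_zero_of_lt_one (by norm_num : (0:ℝ) ≤ 1/16) (by norm_num)).mul_const _).mul_const _
    rw [zero_mul, zero_mul] at h1
    exact (h1.eventually (gt_mem_nhds (half_pos hε))).exists
  have h2 : ∀ᶠ s in 𝓝 t, ∀ m ∈ Finset.range n, ∀ y : C₀(ℕ, ℝ),
      |Th y (S.D m s) - Th y (S.D m t)| ≤ (ε / 4) * ‖y‖ := by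
    rw [Filter.eventually_all_finset]
    intro m _
    exact ((S.D m).continuous.tendsto t).eventually (Th_equi (ht m) (by positivity))
  filter_upwards [h2] with s hs y
  rw [T2_apply, T2_apply]
  have hs1 : Summable fun m => wt m * Th y (S.D m s) := wt_mul_summable fun m => Th_le y _
  have hs2 : Summable fun m => wt m * Th y (S.D m t) := wt_mul_summable fun m => Th_le y _
  rw [← hs1.tsum_sub hs2]
  let b : ℕ → ℝ := fun m => Th y (S.D m s) - Th y (S.D m t)
  have hb : ∀ m, |b m| ≤ 2 * ‖y‖ := fun m => by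
    refine (abs_sub _ _).trans ?_
    have h3 := Th_le y (S.D m s)
    have h4 := Th_le y (S.D m t)
    linarith
  have e1 : (fun m => wt m * Th y (S.D m s) - wt m * Th y (S.D m t)) = fun m => wt m * b m := by
    funext m; rw [← mul_sub]
  rw [e1, ← (wt_mul_summable hb).sum_add_tsum_nat_add n]
  refine (abs_add_le _ _).trans ?_
  have h5 := tail_le hb n
  have h6 : |∑ m ∈ Finset.range n, wt m * b m| ≤ (16/15) * ((ε / 4) * ‖y‖) := by
    refine (Finset.abs_sum_le_sum_abs _ _).trans ?_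
    calc ∑ m ∈ Finset.range n, |wt m * b m| ≤ ∑ m ∈ Finset.range n, wt m * ((ε / 4) * ‖y‖) := by
          refine Finset.sum_le_sum fun m hm => ?_
          rw [abs_mul, abs_of_pos (wt_pos m)]
          exact mul_le_mul_of_nonneg_left (hs m hm y) (wt_pos m).le
      _ = (∑ m ∈ Finset.range n, wt m) * ((ε / 4) * ‖y‖) := by rw [Finset.sum_mul]
      _ ≤ (16/15) * ((ε / 4) * ‖y‖) := by
          refine mul_le_mul_of_nonneg_right ?_ (by positivity)
          have h7 := wt_tail 0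
          have e : wt 0 = 1 := by unfold wt; norm_num
          rw [e, one_mul] at h7
          simp only [add_zero] at h7
          rw [← h7]
          exact wt_summable.sum_le_tsum _ fun m _ => (wt_pos m).le
  have h8 : wt n * (16/15) * (2 * ‖y‖) ≤ (ε / 2) * ‖y‖ := by
    calc wt n * (16/15) * (2 * ‖y‖) = (wt n * (16/15) * 2) * ‖y‖ := by ring
      _ ≤ (ε / 2) * ‖y‖ := by gcongr
  nlinarith [norm_nonneg y, mul_nonneg hε.le (norm_nonneg y)]

lemma not_mem {t : unitInterval} (htU : t ∉ S.U) (htD : ∀ m, S.D m t ≠ 0) : t ∉ Omega S.X := by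
  have htD' : ∀ m, 0 < S.D m t := fun m => lt_of_le_of_ne (S.D0 m t) (Ne.symm (htD m))
  refine gam_zero _ _ fun ε hε => ?_
  have h1 := S.E3 t htU
  have h2 : ∀ᶠ s in 𝓝 t, S.φ s < ε / 8 := by
    have := S.φ.continuous.tendsto t
    rw [S.hφU t htU] at this
    exact this.eventually (gt_mem_nhds (by positivity))
  have h3 := S.T2_equi htD' (ε := ε / 8) (by positivity)
  obtain ⟨d, hd, hball⟩ := Metric.eventually_nhds_iff_ball.mp (h1.and (h2.and h3))
  refine ⟨d / 2, half_pos hd, fun f hf hf1 p hp => ?_⟩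
  obtain ⟨z, hz⟩ := S.mem_X.mp hf
  have hz1 : ‖(z.1 : C(unitInterval, ℝ))‖ + ‖(z.2 : C₀(ℕ, ℝ))‖ ≤ 4 := by
    have := S.lower z.1.2 z.2
    rw [← T_apply, hz, hf1, mul_one] at this
    exact this
  rw [nbhd_eq] at hp
  have hp' : p ∈ Metric.ball t d := Metric.closedBall_subset_ball (half_lt_self hd) hp
  obtain ⟨e1, e2, e3⟩ := hball p hp'
  have e1' := h1.self_of_nhds
  have hx1 := S.E0 _ z.1.2
  rw [← hz, T_apply, ContinuousMap.add_apply, ContinuousMap.add_apply, T1_apply, T1_apply, e1, e1', hx1,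
    S.hφU t htU]
  have e4 := e3 z.2
  have e5 : |S.φ p * (z.1 : C(unitInterval, ℝ)) p| ≤ (ε / 8) * ‖(z.1 : C(unitInterval, ℝ))‖ := by
    rw [abs_mul, abs_of_nonneg (S.hφ0 p)]
    have h6 := (z.1 : C(unitInterval, ℝ)).norm_coe_le_norm p
    rw [Real.norm_eq_abs] at h6
    exact mul_le_mul e2.le h6 (abs_nonneg _) (by positivity)
  have e6 : 0 + S.φ p * (z.1 : C(unitInterval, ℝ)) p + T2 S.D z.2 p -
      (0 + 0 * (z.1 : C(unitInterval, ℝ)) t + T2 S.D z.2 t) =
      S.φ p * (z.1 : C(unitInterval, ℝ)) p + (T2 S.D z.2 p - T2 S.D z.2 t) := by ring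
  rw [e6]
  refine (abs_add_le _ _).trans ?_
  nlinarith [norm_nonneg (z.1 : C(unitInterval, ℝ)), norm_nonneg (z.2 : C₀(ℕ, ℝ))]

lemma mem_of_U {t : unitInterval} (ht : t ∈ S.U) : t ∈ Omega S.X := by
  obtain ⟨c, hc, h⟩ := S.E4 t ht
  refine gam_pos _ _ hc (C := 2) (by norm_num) fun d hd => ?_
  obtain ⟨x, hx, hx1, p, hp, q, hq, hpq⟩ := h d hd
  refine ⟨S.T1 x, ?_, ?_, p, hp, q, hq, hpq⟩
  · rw [mem_X]
    refine ⟨(⟨x, hx⟩, 0), ?_⟩
    rw [T_apply]
    change S.T1 x + T2 S.D 0 = _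
    rw [map_zero, add_zero]
  · have := S.T1_norm x
    linarith

/-- intermediate values along segments -/
lemma ivt (g : C(unitInterval, ℝ)) (t p : unitInterval) {v : ℝ} (h1 : g t ≤ v) (h2 : v ≤ g p) :
    ∃ q : unitInterval, |(q:ℝ) - t| ≤ |(p:ℝ) - t| ∧ g q = v := by
  let γ : ℝ → unitInterval := fun u => Set.projIcc 0 1 zero_le_one ((1 - u) * t + u * p)
  have hγ : Continuous γ := continuous_projIcc.comp (by fun_prop)
  have e0 : γ 0 = t := by
    change Set.projIcc 0 1 zero_le_one ((1 - 0) * (t:ℝ) + 0 * p) = t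
    rw [sub_zero, one_mul, zero_mul, add_zero, Set.projIcc_val]
  have e1 : γ 1 = p := by
    change Set.projIcc 0 1 zero_le_one ((1 - 1) * (t:ℝ) + 1 * p) = p
    rw [sub_self, one_mul, zero_mul, zero_add, Set.projIcc_val]
  have h3 := intermediate_value_Icc (zero_le_one (α := ℝ)) (g.continuous.comp hγ).continuousOn
  have h4 : v ∈ Set.Icc ((g ∘ γ) 0) ((g ∘ γ) 1) := by
    constructor
    · change g (γ 0) ≤ v; rw [e0]; exact h1
    · change v ≤ g (γ 1); rw [e1]; exact h2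
  obtain ⟨u, ⟨hu0, hu1⟩, hu⟩ := h3 h4
  refine ⟨γ u, ?_, hu⟩
  have hmem : (1 - u) * (t:ℝ) + u * p ∈ Set.Icc (0:ℝ) 1 := by
    have h5 := t.2.1; have h6 := t.2.2; have h7 := p.2.1; have h8 := p.2.2
    constructor
    · have := mul_nonneg (sub_nonneg.mpr hu1) h5
      have := mul_nonneg hu0 h7
      linarith
    · nlinarith
  have e2 : ((γ u : unitInterval) : ℝ) = (1 - u) * t + u * p := by
    change ((Set.projIcc 0 1 zero_le_one ((1 - u) * (t:ℝ) + u * p) : unitInterval) : ℝ) = _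
    rw [Set.projIcc_of_mem zero_le_one hmem]
  rw [e2]
  have e3 : (1 - u) * (t:ℝ) + u * p - t = u * ((p:ℝ) - t) := by ring
  rw [e3, abs_mul, abs_of_nonneg hu0]
  exact mul_le_of_le_one_left (abs_nonneg _) hu1

lemma exists_block (k0 : ℕ) : ∃ N : ℕ, 1 ≤ N ∧ ∀ s : Fin N → Bool, k0 ≤ code N s := by
  classical
  let g : ℕ → ℕ := fun j => match (Encodable.decode j : Option (Σ n : ℕ, (Fin n → Bool))) with
    | some a => a.1
    | none => 0
  have hg : ∀ N (s : Fin N → Bool), g (code N s) = N := by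
    intro N s
    simp only [g, code, Encodable.encodek]
  have hfin : {N : ℕ | ∃ s : Fin N → Bool, code N s < k0}.Finite := by
    refine ((Set.finite_Iio k0).image g).subset ?_
    rintro N ⟨s, hs⟩
    exact ⟨code N s, hs, hg N s⟩
  obtain ⟨B, hB⟩ := hfin.bddAbove
  refine ⟨B + 1, by omega, fun s => ?_⟩
  by_contra hcon
  have := hB ⟨s, not_le.mp hcon⟩
  omega

lemma mem_of_D {t : unitInterval} (ht : ∃ m, S.D m t = 0) : t ∈ Omega S.X := by
  classical
  set n := Nat.find ht with hn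
  have hn0 : S.D n t = 0 := Nat.find_spec ht
  have hlt : ∀ m < n, 0 < S.D m t := fun m hm =>
    lt_of_le_of_ne (S.D0 m t) (Ne.symm (Nat.find_min ht hm))
  have hge : ∀ m, n ≤ m → S.D m t = 0 := by
    intro m hm
    induction m, hm using Nat.le_induction with
    | base => exact hn0
    | succ m _ ih => exact S.D1 m t ih
  refine gam_pos _ _ (c := wt n * (14/15)) (mul_pos (wt_pos n) (by norm_num)) (C := ‖T2 S.D‖ + 1)
    (by positivity) fun d hd => ?_
  -- the first coordinates are bounded below near `t`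
  have h1 : ∀ m ∈ Finset.range n, ∃ k0 : ℕ, ∀ᶠ s in 𝓝 t, ∀ k ≥ k0, th k (S.D m s) = 0 := by
    intro m hm
    have hpos := hlt m (Finset.mem_range.mp hm)
    obtain ⟨k0, hk0⟩ := th_small (half_pos hpos)
    refine ⟨k0, ?_⟩
    filter_upwards [((S.D m).continuous.tendsto t).eventually (eventually_ge_nhds (half_lt_self hpos))] with s hs k hk
    exact hk0 k hk _ hs
  choose! K0 hK0 using h1
  have h2 : ∀ᶠ s in 𝓝 t, ∀ m ∈ Finset.range n, ∀ k ≥ K0 m, th k (S.D m s) = 0 := by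
    rw [Filter.eventually_all_finset]
    exact hK0
  obtain ⟨d1, hd1, hball⟩ := Metric.eventually_nhds_iff_ball.mp h2
  set d2 := min d (d1 / 2) with hd2
  have hd2pos : 0 < d2 := lt_min hd (half_pos hd1)
  obtain ⟨p', hp', hDp'⟩ := S.D2 n t hn0 d2 hd2pos
  have h3 : ∀ᶠ k in atTop, pk k < S.D n p' := pk_tendsto.eventually (gt_mem_nhds hDp')
  obtain ⟨k1, hk1⟩ := eventually_atTop.mp h3
  obtain ⟨N, hN1, hN⟩ := exists_block (max k1 ((Finset.range n).sup K0))
  let θ : (Fin N → Bool) → ℝ := fun s => sg (s ⟨0, hN1⟩)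
  have hθ : θ ∈ rad N := mem_rad.mpr ⟨Pi.single ⟨0, hN1⟩ 1, fun s => by
      rw [Finset.sum_eq_single ⟨0, hN1⟩]
      · simp [θ]
      · intro j _ hj; simp [hj]
      · intro h; exact absurd (Finset.mem_univ _) h⟩
  set y := blk N θ with hy
  have hyY : y ∈ YY := blk_mem hθ
  have hy1 : ‖y‖ ≤ 1 := blk_norm N θ zero_le_one fun s => (abs_sg _).le
  have hyk : ∀ m ∈ Finset.range n, ∀ k < K0 m, y k = 0 := by
    intro m hm k hk
    refine blk_other N θ k ?_
    rintro ⟨s, hs⟩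
    have h4 := hN s
    have h5 : K0 m ≤ (Finset.range n).sup K0 := Finset.le_sup hm
    have h6 := le_max_right k1 ((Finset.range n).sup K0)
    omega
  have hTh : ∀ m ∈ Finset.range n, ∀ s ∈ Metric.ball t d1, Th y (S.D m s) = 0 := by
    intro m hm s hs
    by_cases hex : ∃ k, th k (S.D m s) ≠ 0
    · obtain ⟨k, hk⟩ := hex
      have hkk : k < K0 m := by
        by_contra hcon
        exact hk (hball s hs m hm k (not_lt.mp hcon))
      rw [Th_of_ne y hk, hyk m hm k hkk, zero_mul]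
    · push Not at hex
      exact Th_of_all y hex
  set k := code N (fun _ => false) with hk
  obtain ⟨p, hpt, hp⟩ := ivt (S.D n) t p' (v := pk k) (by rw [hn0]; exact (pk_pos k).le)
    (hk1 k ((le_max_left _ _).trans (hN _))).le
  have hpd2 : p ∈ nbhd t d2 := hpt.trans hp'
  have hpball : p ∈ Metric.ball t d1 := by
    rw [nbhd_eq] at hpd2
    refine Metric.closedBall_subset_ball ?_ hpd2
    exact lt_of_le_of_lt (min_le_right _ _) (half_lt_self hd1)
  refine ⟨T2 S.D y, ?_, ?_, p, ?_, t, ?_, ?_⟩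
  · rw [mem_X]
    refine ⟨(0, ⟨y, hyY⟩), ?_⟩
    rw [T_apply]
    change S.T1 0 + T2 S.D y = _
    rw [map_zero, zero_add]
  · calc ‖T2 S.D y‖ ≤ ‖T2 S.D‖ * ‖y‖ := (T2 S.D).le_opNorm y
      _ ≤ ‖T2 S.D‖ * 1 := by gcongr
      _ ≤ ‖T2 S.D‖ + 1 := by linarith
  · exact le_trans (show |(p:ℝ) - t| ≤ d2 from hpd2) (min_le_left _ _)
  · change |(t:ℝ) - t| ≤ d
    rw [sub_self, abs_zero]; exact hd.le
  · have ht0 : T2 S.D y t = 0 := by
      rw [T2_apply]
      have : ∀ m, wt m * Th y (S.D m t) = 0 := by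
        intro m
        rcases lt_or_ge m n with h | h
        · rw [hTh m (Finset.mem_range.mpr h) t (Metric.mem_ball_self hd1), mul_zero]
        · rw [hge m h, Th_zero y le_rfl, mul_zero]
      simp_rw [this]
      exact tsum_zero
    rw [ht0, sub_zero, T2_apply]
    have h7 := split_first (a := fun m => Th y (S.D m p)) (B := 1) (fun m => (Th_le y _).trans hy1) (n := n)
      (fun m hm => hTh m (Finset.mem_range.mpr hm) p hpball)
    rw [hp, Th_pk] at h7
    have h8 : |y k| = 1 := by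
      rw [hk, hy, blk_code]; exact abs_sg _
    have h9 : wt n * |y k| - wt n * 1 / 15 ≤ |∑' m, wt m * Th y (S.D m p)| := by
      have e : wt n * |y k| = |wt n * y k| := by rw [abs_mul, abs_of_pos (wt_pos n)]
      rw [e]
      have e2 : wt n * y k = (∑' m, wt m * Th y (S.D m p)) - ((∑' m, wt m * Th y (S.D m p)) - wt n * y k) := by ring
      have h10 : |wt n * y k| ≤ |∑' m, wt m * Th y (S.D m p)| + |(∑' m, wt m * Th y (S.D m p)) - wt n * y k| := by
        conv_lhs => rw [e2]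
        exact abs_sub _ _
      linarith
    rw [h8] at h9
    linarith

end Dta

/-- the theorem for given data -/
theorem main (S : Dta) (M : Set unitInterval) (hM : ∀ t, t ∈ M ↔ t ∈ S.U ∨ ∃ m, S.D m t = 0) :
    IsClosed (S.X : Set C(unitInterval, ℝ)) ∧ Omega S.X = M ∧ ¬ IsCompl S.X := by
  refine ⟨S.X_closed, ?_, S.X_not_compl⟩
  ext t
  rw [hM t]
  constructor
  · intro h
    by_contra hcon
    push Not at hcon
    exact S.not_mem hcon.1 hcon.2 h
  · rintro (h | h)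
    · exact S.mem_of_U h
    · exact S.mem_of_D h

end Pool.Agent.R279.OS
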