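import Mathlib
import Pool.Agent.R279.OS.Core

set_option autoImplicit false
set_option maxSynthPendingDepth 3

open Filter Topology Set
open scoped ZeroAtInfty

/-!
# Building the data from an `F_σ` set
-/

namespace Pool.Agent.R279.OS

lemma dist_unit (s t : unitInterval) : dist s t = |(s:ℝ) - t| := by
  rw [Subtype.dist_eq, Real.dist_eq]

/-- there are points of the interval at all small distances -/
lemma exists_at (t : unitInterval) {d : ℝ} (hd : 0 ≤ d) (hd2 : d ≤ 1/2) :
    ∃ p : unitInterval, |(p:ℝ) - t| = d := by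
  have h1 := t.2.1
  have h2 := t.2.2
  rcases le_or_gt (t:ℝ) (1/2) with h | h
  · exact ⟨⟨t + d, by constructor <;> linarith⟩, by
      change |(t:ℝ) + d - t| = d
      rw [add_sub_cancel_left, abs_of_nonneg hd]⟩
  · exact ⟨⟨t - d, by constructor <;> linarith⟩, by
      change |(t:ℝ) - d - t| = d
      rw [sub_sub_cancel_left, abs_neg, abs_of_nonneg hd]⟩

/-- no isolated points -/
lemma singleton_interior (t : unitInterval) : interior ({t} : Set unitInterval) = ∅ := by
  by_contra hne
  obtain ⟨s, hs⟩ := Set.nonempty_iff_ne_empty.mpr hne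
  have hst : s = t := mem_singleton_iff.mp (interior_subset hs)
  subst hst
  obtain ⟨ε, hε, hball⟩ := Metric.isOpen_iff.mp isOpen_interior s hs
  obtain ⟨p, hp⟩ := exists_at s (d := min (ε/2) (1/2)) (by positivity) (min_le_right _ _)
  have hpos : 0 < min (ε/2) (1/2 : ℝ) := by positivity
  have h1 : p ∈ Metric.ball s ε := by
    rw [Metric.mem_ball, dist_unit, hp]
    exact lt_of_le_of_lt (min_le_left _ _) (half_lt_self hε)
  have h2 : p = s := mem_singleton_iff.mp (interior_subset (hball h1))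
  rw [h2, sub_self, abs_zero] at hp
  linarith

section

variable (M : Set unitInterval) (F : ℕ → Set unitInterval) (t0 : unitInterval)

/-- the open part -/
def Uo : Set unitInterval := interior M \ {t0}

/-- the closed nowhere dense parts -/
def G (m : ℕ) : Set unitInterval := ((⋃ j ∈ Finset.range (m+1), F j) \ interior M) ∪ {t0}

variable {M F t0}

lemma Uo_open : IsOpen (Uo M t0) := isOpen_interior.sdiff isClosed_singleton

lemma G_closed (hF : ∀ n, IsClosed (F n)) (m : ℕ) : IsClosed (G M F t0 m) := by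
  refine IsClosed.union (IsClosed.sdiff ?_ isOpen_interior) isClosed_singleton
  exact isClosed_biUnion_finset fun j _ => hF j

lemma G_mono {m n : ℕ} (h : m ≤ n) : G M F t0 m ⊆ G M F t0 n := by
  rintro t (⟨ht, ht2⟩ | ht)
  · left
    refine ⟨?_, ht2⟩
    simp only [mem_iUnion, Finset.mem_range] at ht ⊢
    obtain ⟨j, hj, hjt⟩ := ht
    exact ⟨j, by omega, hjt⟩
  · exact Or.inr ht

lemma G_interior (hF : ∀ n, IsClosed (F n)) (hM : M = ⋃ n, F n) (m : ℕ) : interior (G M F t0 m) = ∅ := by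
  refine (interior_union_isClosed_of_interior_empty ?_ ?_).trans ?_
  · exact IsClosed.sdiff (isClosed_biUnion_finset fun j _ => hF j) isOpen_interior
  · exact singleton_interior t0
  · by_contra hne
    obtain ⟨s, hs⟩ := Set.nonempty_iff_ne_empty.mpr hne
    have h1 : interior ((⋃ j ∈ Finset.range (m+1), F j) \ interior M) ⊆ M := by
      refine interior_subset.trans ?_
      rintro t ⟨ht, -⟩
      rw [hM]
      simp only [mem_iUnion, Finset.mem_range] at ht ⊢
      obtain ⟨j, -, hjt⟩ := ht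
      exact ⟨j, hjt⟩
    have h2 := interior_maximal h1 isOpen_interior hs
    exact (interior_subset hs).2 h2

lemma mem_iff (hM : M = ⋃ n, F n) (ht0 : t0 ∈ M) (t : unitInterval) :
    t ∈ M ↔ t ∈ Uo M t0 ∨ ∃ m, t ∈ G M F t0 m := by
  constructor
  · intro ht
    by_cases h1 : t = t0
    · exact Or.inr ⟨0, Or.inr h1⟩
    by_cases h2 : t ∈ interior M
    · exact Or.inl ⟨h2, h1⟩
    · right
      rw [hM] at ht
      obtain ⟨n, hn⟩ := mem_iUnion.mp ht
      refine ⟨n, Or.inl ⟨?_, h2⟩⟩
      simp only [mem_iUnion, Finset.mem_range]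
      exact ⟨n, by omega, hn⟩
  · rintro (h | ⟨m, h | h⟩)
    · exact interior_subset h.1
    · obtain ⟨h, -⟩ := h
      rw [hM]
      simp only [mem_iUnion, Finset.mem_range] at h ⊢
      obtain ⟨j, -, hj⟩ := h
      exact ⟨j, hj⟩
    · rw [mem_singleton_iff] at h
      rw [h]; exact ht0

end

/-- distance functions -/
noncomputable def dd (A : Set unitInterval) : C(unitInterval, ℝ) :=
  ⟨fun t => Metric.infDist t A, Metric.continuous_infDist_pt A⟩

lemma dd_zero {A : Set unitInterval} (hA : IsClosed A) (hne : A.Nonempty) (t : unitInterval) :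
    dd A t = 0 ↔ t ∈ A := (hA.mem_iff_infDist_zero hne).symm

lemma dd_nonneg (A : Set unitInterval) (t : unitInterval) : 0 ≤ dd A t := Metric.infDist_nonneg

/-- the functions `D m` -/
noncomputable def DD (M : Set unitInterval) (F : ℕ → Set unitInterval) (t0 : unitInterval) (r : ℝ) :
    ℕ → C(unitInterval, ℝ)
  | 0 => ⟨fun t => |(t:ℝ) - t0| / r, by fun_prop⟩
  | m+1 => dd (G M F t0 m)

/-- the function `φ` -/
noncomputable def phi (U : Set unitInterval) : C(unitInterval, ℝ) :=
  ⟨fun t => min (1/4) (dd Uᶜ t), by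
    have := (dd Uᶜ).continuous
    fun_prop⟩

section

variable {M : Set unitInterval} {F : ℕ → Set unitInterval} {t0 : unitInterval} {r : ℝ}

lemma DD0 (hr : 0 < r) (m : ℕ) (t : unitInterval) : 0 ≤ DD M F t0 r m t := by
  cases m with
  | zero => exact div_nonneg (abs_nonneg _) hr.le
  | succ m => exact dd_nonneg _ _

lemma G_ne (m : ℕ) : (G M F t0 m).Nonempty := ⟨t0, Or.inr rfl⟩

lemma DD_zero_iff (_hF : ∀ n, IsClosed (F n)) (hr : 0 < r) (t : unitInterval) :
    DD M F t0 r 0 t = 0 ↔ t = t0 := by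
  change |(t:ℝ) - t0| / r = 0 ↔ _
  rw [div_eq_zero_iff]
  constructor
  · rintro (h | h)
    · exact Subtype.ext (sub_eq_zero.mp (abs_eq_zero.mp h))
    · exact absurd h hr.ne'
  · rintro rfl; left; simp

lemma DD_succ_iff (hF : ∀ n, IsClosed (F n)) (m : ℕ) (t : unitInterval) :
    DD M F t0 r (m+1) t = 0 ↔ t ∈ G M F t0 m := dd_zero (G_closed hF m) (G_ne m) t

lemma DD1 (hF : ∀ n, IsClosed (F n)) (hr : 0 < r) (m : ℕ) (t : unitInterval) (h : DD M F t0 r m t = 0) :
    DD M F t0 r (m+1) t = 0 := by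
  cases m with
  | zero =>
    rw [DD_succ_iff hF]
    rw [DD_zero_iff hF hr] at h
    exact Or.inr h
  | succ m =>
    rw [DD_succ_iff hF] at h ⊢
    exact G_mono (Nat.le_succ m) h

lemma DD2 (hF : ∀ n, IsClosed (F n)) (hM : M = ⋃ n, F n) (hr : 0 < r) (m : ℕ) (t : unitInterval)
    (d : ℝ) (hd : 0 < d) : ∃ p ∈ nbhd t d, 0 < DD M F t0 r m p := by
  have key : ∀ A : Set unitInterval, interior A = ∅ → ∃ p ∈ nbhd t d, p ∉ A := by
    intro A hA
    by_contra hcon
    push Not at hcon
    have h1 : Metric.ball t d ⊆ A := by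
      intro p hp
      refine hcon p ?_
      rw [nbhd_eq]; exact Metric.ball_subset_closedBall hp
    have h2 := interior_maximal h1 Metric.isOpen_ball
    rw [hA] at h2
    exact h2 (Metric.mem_ball_self hd)
  cases m with
  | zero =>
    obtain ⟨p, hp, hpA⟩ := key {t0} (singleton_interior t0)
    refine ⟨p, hp, lt_of_le_of_ne (DD0 hr 0 p) (Ne.symm ?_)⟩
    rw [Ne, DD_zero_iff hF hr]; exact hpA
  | succ m =>
    obtain ⟨p, hp, hpA⟩ := key (G M F t0 m) (G_interior hF hM m)
    refine ⟨p, hp, lt_of_le_of_ne (DD0 hr (m+1) p) (Ne.symm ?_)⟩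
    rw [Ne, DD_succ_iff hF]; exact hpA

lemma DD3 (hr : 0 < r) (hr2 : r ≤ 1/2) (v : ℝ) (hv0 : 0 ≤ v) (hv1 : v ≤ 1) :
    ∃ p, DD M F t0 r 0 p = v := by
  obtain ⟨p, hp⟩ := exists_at t0 (d := v * r) (by positivity) (by nlinarith)
  refine ⟨p, ?_⟩
  change |(p:ℝ) - t0| / r = v
  rw [hp, mul_div_cancel_right₀ _ hr.ne']

end

lemma phi_nonneg (U : Set unitInterval) (t : unitInterval) : 0 ≤ phi U t :=
  le_min (by norm_num) (dd_nonneg _ _)

lemma phi_le (U : Set unitInterval) (t : unitInterval) : phi U t ≤ 1/4 := min_le_left _ _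

lemma phi_zero {U : Set unitInterval} (t : unitInterval) (ht : t ∉ U) : phi U t = 0 := by
  have : dd Uᶜ t = 0 := Metric.infDist_zero_of_mem ht
  change min (1/4) (dd Uᶜ t) = 0
  rw [this]; norm_num

lemma phi_pos {U : Set unitInterval} (hU : IsOpen U) (hne : Uᶜ.Nonempty) {t : unitInterval} (ht : t ∈ U) :
    0 < phi U t := by
  refine lt_min (by norm_num) ?_
  refine lt_of_le_of_ne (dd_nonneg _ _) (Ne.symm ?_)
  rw [Ne, dd_zero hU.isClosed_compl hne]
  exact fun h => h ht

/-- a bump -/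
noncomputable def bump (p : unitInterval) (η : ℝ) : C(unitInterval, ℝ) :=
  ⟨fun s => max 0 (1 - |(s:ℝ) - p| / η), by fun_prop⟩

lemma bump_nonneg (p : unitInterval) (η : ℝ) (s : unitInterval) : 0 ≤ bump p η s := le_max_left _ _

lemma bump_le (p : unitInterval) {η : ℝ} (hη : 0 < η) (s : unitInterval) : bump p η s ≤ 1 := by
  refine max_le zero_le_one ?_
  have : 0 ≤ |(s:ℝ) - p| / η := by positivity
  linarith

lemma bump_self (p : unitInterval) (η : ℝ) : bump p η p = 1 := by
  change max 0 (1 - |(p:ℝ) - p| / η) = 1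
  simp

lemma bump_zero (p : unitInterval) {η : ℝ} (hη : 0 < η) {s : unitInterval} (h : η ≤ |(s:ℝ) - p|) :
    bump p η s = 0 := by
  refine max_eq_left ?_
  have : 1 ≤ |(s:ℝ) - p| / η := by rwa [le_div_iff₀ hη, one_mul]
  linarith

lemma bump_norm (p : unitInterval) {η : ℝ} (hη : 0 < η) : ‖bump p η‖ ≤ 1 := by
  rw [ContinuousMap.norm_le _ zero_le_one]
  intro s
  rw [Real.norm_of_nonneg (bump_nonneg p η s)]
  exact bump_le p hη s

/-- functions vanishing at `1` -/
noncomputable def E1 : Submodule ℝ C(unitInterval, ℝ) :=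
  (ContinuousMap.evalCLM ℝ (1 : unitInterval) : C(unitInterval, ℝ) →L[ℝ] ℝ).ker

lemma mem_E1 {x : C(unitInterval, ℝ)} : x ∈ E1 ↔ x 1 = 0 := LinearMap.mem_ker

lemma E1_closed : IsClosed (E1 : Set C(unitInterval, ℝ)) :=
  (ContinuousMap.evalCLM ℝ (1 : unitInterval) : C(unitInterval, ℝ) →L[ℝ] ℝ).isClosed_ker

/-- the map `σ` -/
noncomputable def sig (p1 : unitInterval) (ρ : ℝ) : C(unitInterval, unitInterval) :=
  ⟨fun t => Set.projIcc 0 1 zero_le_one (|(t:ℝ) - p1| / ρ), continuous_projIcc.comp (by fun_prop)⟩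

lemma sig_one {p1 : unitInterval} {ρ : ℝ} (hρ : 0 < ρ) {t : unitInterval} (h : ρ ≤ |(t:ℝ) - p1|) :
    sig p1 ρ t = 1 := by
  change Set.projIcc 0 1 zero_le_one (|(t:ℝ) - p1| / ρ) = 1
  have : 1 ≤ |(t:ℝ) - p1| / ρ := by rwa [le_div_iff₀ hρ, one_mul]
  exact Set.projIcc_of_right_le zero_le_one this

lemma sig_val {p1 : unitInterval} {ρ : ℝ} (hρ : 0 < ρ) {t : unitInterval} (h : |(t:ℝ) - p1| ≤ ρ) :
    ((sig p1 ρ t : unitInterval) : ℝ) = |(t:ℝ) - p1| / ρ := by
  change ((Set.projIcc 0 1 zero_le_one (|(t:ℝ) - p1| / ρ) : unitInterval) : ℝ) = _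
  rw [Set.projIcc_of_mem]
  refine ⟨by positivity, ?_⟩
  rw [div_le_one hρ]; exact h

/-- any set with nonempty open part -/
noncomputable def dta1 {M : Set unitInterval} {F : ℕ → Set unitInterval} {t0 : unitInterval}
    (hF : ∀ n, IsClosed (F n)) (hM : M = ⋃ n, F n) {p1 : unitInterval} {ρ r : ℝ} (hρ : 0 < ρ)
    (hρ2 : ρ ≤ 1/2) (hr : 0 < r) (hr2 : r ≤ 1/2)
    (h1 : ∀ t : unitInterval, |(t:ℝ) - p1| ≤ ρ → t ∈ Uo M t0)
    (h2 : ∀ t : unitInterval, |(t:ℝ) - p1| < ρ → r ≤ |(t:ℝ) - t0|) : Dta where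
  σ := sig p1 ρ
  φ := phi (Uo M t0)
  D := DD M F t0 r
  E := E1
  U := Uo M t0
  hE := E1_closed
  hφ0 := phi_nonneg _
  hφ1 := phi_le _
  hφU := phi_zero
  E0 := fun x hx => mem_E1.mp hx
  E1 := by
    intro x hx
    rcases eq_or_ne x 0 with h0 | h0
    · obtain ⟨p, hp⟩ := DD3 (M := M) (F := F) (t0 := t0) hr hr2 1 zero_le_one le_rfl
      exact ⟨p, by rw [h0]; simp, hp.ge⟩
    obtain ⟨s, -, hs⟩ := isCompact_univ.exists_isMaxOn (Set.univ_nonempty (α := unitInterval))
      (x.continuous.abs.continuousOn)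
    have hsn : |x s| = ‖x‖ := by
      refine le_antisymm (x.norm_coe_le_norm s) ?_
      rw [ContinuousMap.norm_le _ (abs_nonneg _)]
      exact fun t => hs (mem_univ t)
    have hs1 : s ≠ 1 := by
      rintro rfl
      rw [mem_E1.mp hx, abs_zero] at hsn
      exact h0 (norm_eq_zero.mp hsn.symm)
    have hs1' : (s:ℝ) < 1 := lt_of_le_of_ne s.2.2 (fun h => hs1 (Subtype.ext h))
    obtain ⟨p, hp⟩ := exists_at p1 (d := (s:ℝ) * ρ) (mul_nonneg s.2.1 hρ.le) (by nlinarith [s.2.1])
    have hplt : |(p:ℝ) - p1| < ρ := by rw [hp]; nlinarith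
    have hσ : sig p1 ρ p = s := by
      apply Subtype.ext
      rw [sig_val hρ hplt.le, hp, mul_div_cancel_right₀ _ hρ.ne']
    refine ⟨p, by rw [hσ, hsn], ?_⟩
    change 1 ≤ |(p:ℝ) - t0| / r
    rw [le_div_iff₀ hr, one_mul]
    exact h2 p hplt
  E2 := by
    intro p hp
    change |(p:ℝ) - t0| / r < 1 at hp
    rw [div_lt_one hr] at hp
    refine sig_one hρ ?_
    by_contra hcon
    exact absurd (h2 p (not_le.mp hcon)) (not_le.mpr hp)
  E3 := by
    intro t ht
    have h3 : ρ < |(t:ℝ) - p1| := by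
      by_contra hcon
      exact ht (h1 t (not_lt.mp hcon))
    have h4 : Continuous fun s : unitInterval => |(s:ℝ) - p1| := by fun_prop
    filter_upwards [(h4.tendsto t).eventually (lt_mem_nhds h3)] with s hs
    exact sig_one hρ hs.le
  E4 := by
    intro t ht
    have hne : (Uo M t0)ᶜ.Nonempty := ⟨t0, fun h => h.2 rfl⟩
    have hφt := phi_pos Uo_open hne ht
    rcases le_or_gt |(t:ℝ) - p1| ρ with h3 | h3
    · -- in the main region
      refine ⟨3/4, by norm_num, fun d hd => ?_⟩
      -- two points with different values of `σ`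
      obtain ⟨p, q, hp, hq, hpρ, hne'⟩ : ∃ p q : unitInterval, p ∈ nbhd t d ∧ q ∈ nbhd t d ∧
          |(p:ℝ) - p1| < ρ ∧ sig p1 ρ q ≠ sig p1 ρ p := by
        -- move towards `p1`, or away from it
        rcases eq_or_ne t p1 with htp | htp
        · obtain ⟨q, hq⟩ := exists_at t (d := min d (ρ/2)) (by positivity)
            ((min_le_right _ _).trans (by linarith))
          have hmin : 0 < min d (ρ/2) := by positivity
          refine ⟨t, q, ?_, ?_, ?_, ?_⟩
          · change |(t:ℝ) - t| ≤ d; rw [sub_self, abs_zero]; exact hd.le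
          · change |(q:ℝ) - t| ≤ d; rw [hq]; exact min_le_left _ _
          · rw [htp, sub_self, abs_zero]; exact hρ
          · intro h
            have h5 := congrArg (fun z : unitInterval => (z:ℝ)) h
            rw [htp] at hq h5
            rw [sig_val hρ (by rw [hq]; exact (min_le_right _ _).trans (by linarith)),
              sig_val hρ (by rw [sub_self, abs_zero]; exact hρ.le), hq, sub_self, abs_zero, zero_div,
              div_eq_zero_iff] at h5
            rcases h5 with h5 | h5 <;> linarith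
        · -- `p` strictly closer to `p1` than `t`
          have hpos : 0 < |(t:ℝ) - p1| := abs_pos.mpr (sub_ne_zero.mpr fun h => htp (Subtype.ext h))
          set u := min (1/2) (d / |(t:ℝ) - p1|) with hu
          have hu0 : 0 < u := by positivity
          have hu1 : u ≤ 1/2 := min_le_left _ _
          have hu2 : u * |(t:ℝ) - p1| ≤ d := by
            calc u * |(t:ℝ) - p1| ≤ (d / |(t:ℝ) - p1|) * |(t:ℝ) - p1| := by
                  gcongr; exact min_le_right _ _
              _ = d := by field_simp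
          have hmem : (t:ℝ) + u * (p1 - t) ∈ Set.Icc (0:ℝ) 1 := by
            have a1 := t.2.1; have a2 := t.2.2; have a3 := p1.2.1; have a4 := p1.2.2
            constructor <;> nlinarith
          refine ⟨⟨(t:ℝ) + u * (p1 - t), hmem⟩, t, ?_, ?_, ?_, ?_⟩
          · change |(t:ℝ) + u * (p1 - t) - t| ≤ d
            rw [add_sub_cancel_left, abs_mul, abs_of_pos hu0, abs_sub_comm]
            exact hu2
          · change |(t:ℝ) - t| ≤ d; rw [sub_self, abs_zero]; exact hd.le
          · change |(t:ℝ) + u * (p1 - t) - p1| < ρ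
            have e : (t:ℝ) + u * (p1 - t) - p1 = (1 - u) * (t - p1) := by ring
            rw [e, abs_mul, abs_of_pos (by linarith : (0:ℝ) < 1 - u)]
            nlinarith
          · intro h
            have h5 := congrArg (fun z : unitInterval => (z:ℝ)) h
            have e : (t:ℝ) + u * (p1 - t) - p1 = (1 - u) * (t - p1) := by ring
            have e2 : |(t:ℝ) + u * (p1 - t) - p1| = (1 - u) * |(t:ℝ) - p1| := by
              rw [e, abs_mul, abs_of_pos (by linarith : (0:ℝ) < 1 - u)]
            rw [sig_val hρ h3, sig_val hρ (t := ⟨(t:ℝ) + u * (p1 - t), hmem⟩) (by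
              change |(t:ℝ) + u * (p1 - t) - p1| ≤ ρ
              rw [e2]; nlinarith)] at h5
            change |(t:ℝ) - p1| / ρ = |(t:ℝ) + u * (p1 - t) - p1| / ρ at h5
            rw [e2, div_left_inj' hρ.ne'] at h5
            nlinarith
      have hσp1 : (sig p1 ρ p : unitInterval) ≠ 1 := by
        intro h
        have h5 := congrArg (fun z : unitInterval => (z:ℝ)) h
        rw [sig_val hρ hpρ.le] at h5
        have : |(p:ℝ) - p1| / ρ < 1 := by rw [div_lt_one hρ]; exact hpρ
        rw [h5] at this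
        simp at this
      have g1 : 0 < |((sig p1 ρ q : unitInterval) : ℝ) - (sig p1 ρ p : unitInterval)| :=
        abs_pos.mpr (sub_ne_zero.mpr fun h => hne' (Subtype.ext h))
      have g2 : 0 < |((1 : unitInterval) : ℝ) - (sig p1 ρ p : unitInterval)| :=
        abs_pos.mpr (sub_ne_zero.mpr fun h => hσp1 (Subtype.ext h.symm))
      set η := min |((sig p1 ρ q : unitInterval) : ℝ) - (sig p1 ρ p : unitInterval)|
        |((1 : unitInterval) : ℝ) - (sig p1 ρ p : unitInterval)| with hη
      have hηpos : 0 < η := lt_min g1 g2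
      refine ⟨bump (sig p1 ρ p) η, mem_E1.mpr (bump_zero _ hηpos (min_le_right _ _)), bump_norm _ hηpos,
        p, hp, q, hq, ?_⟩
      rw [bump_self, bump_zero _ hηpos (min_le_left _ _)]
      have k1 := mul_nonneg (phi_nonneg (Uo M t0) p) (bump_nonneg (sig p1 ρ p) η p)
      have k2 : phi (Uo M t0) q * bump (sig p1 ρ p) η q ≤ 1/4 := by
        calc _ ≤ (1/4) * 1 := mul_le_mul (phi_le _ _) (bump_le _ hηpos _) (bump_nonneg _ _ _) (by norm_num)
          _ = 1/4 := by norm_num
      refine le_trans ?_ (le_abs_self _)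
      linarith
    · -- away from it
      refine ⟨phi (Uo M t0) t / 2, half_pos hφt, fun d hd => ?_⟩
      -- a nearby point different from `1`
      have h4 : Continuous fun s : unitInterval => |(s:ℝ) - p1| := by fun_prop
      have h5 : ∀ᶠ s : unitInterval in 𝓝 t, ρ < |(s:ℝ) - p1| ∧ phi (Uo M t0) t / 2 < phi (Uo M t0) s :=
        ((h4.tendsto t).eventually (lt_mem_nhds h3)).and
          (((phi (Uo M t0)).continuous.tendsto t).eventually (lt_mem_nhds (half_lt_self hφt)))
      obtain ⟨d1, hd1, hball⟩ := Metric.eventually_nhds_iff_ball.mp h5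
      set d2 := min d (min (d1 / 2) (1/2)) with hd2
      have hd2pos : 0 < d2 := by positivity
      have hd2a : d2 ≤ d := min_le_left _ _
      have hd2b : d2 ≤ d1 / 2 := (min_le_right _ _).trans (min_le_left _ _)
      have hd2c : d2 ≤ 1/2 := (min_le_right _ _).trans (min_le_right _ _)
      have hmemball : ∀ s : unitInterval, |(s:ℝ) - t| ≤ d2 → s ∈ Metric.ball t d1 := by
        intro s hs
        rw [Metric.mem_ball, dist_unit]
        linarith
      obtain ⟨p', hp'⟩ := exists_at t hd2pos.le hd2c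
      -- one of `t`, `p'` is not `1`
      obtain ⟨p, q, hpd, hqd, hp1, hpq⟩ : ∃ p q : unitInterval, |(p:ℝ) - t| ≤ d2 ∧ |(q:ℝ) - t| ≤ d2 ∧
          p ≠ 1 ∧ p ≠ q := by
        have hne2 : p' ≠ t := by
          rintro rfl
          rw [sub_self, abs_zero] at hp'
          exact hd2pos.ne hp'
        rcases eq_or_ne t 1 with ht1 | ht1
        · exact ⟨p', t, hp'.le, by rw [sub_self, abs_zero]; exact hd2pos.le, by rw [← ht1]; exact hne2, hne2⟩
        · exact ⟨t, p', by rw [sub_self, abs_zero]; exact hd2pos.le, hp'.le, ht1, hne2.symm⟩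
      have g1 : 0 < |((q : unitInterval) : ℝ) - (p : unitInterval)| :=
        abs_pos.mpr (sub_ne_zero.mpr fun h => hpq (Subtype.ext h.symm))
      have g2 : 0 < |((1 : unitInterval) : ℝ) - (p : unitInterval)| :=
        abs_pos.mpr (sub_ne_zero.mpr fun h => hp1 (Subtype.ext h.symm))
      set η := min |((q : unitInterval) : ℝ) - (p : unitInterval)|
        |((1 : unitInterval) : ℝ) - (p : unitInterval)| with hη
      have hηpos : 0 < η := lt_min g1 g2
      have hE : bump p η 1 = 0 := bump_zero _ hηpos (min_le_right _ _)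
      refine ⟨bump p η, mem_E1.mpr hE, bump_norm _ hηpos, p, hpd.trans hd2a, q, hqd.trans hd2a, ?_⟩
      have k1 := hball p (hmemball p hpd)
      have k2 := hball q (hmemball q hqd)
      rw [sig_one hρ k1.1.le, sig_one hρ k2.1.le, hE, bump_self, bump_zero p hηpos (min_le_left _ _)]
      rw [mul_one, mul_zero, zero_add, add_zero, sub_zero, abs_of_nonneg (phi_nonneg _ _)]
      exact k1.2.le
  D0 := DD0 hr
  D1 := DD1 hF hr
  D2 := fun m t _ d hd => DD2 hF hM hr m t d hd
  D3 := DD3 hr hr2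

/-- the case of an empty open part -/
noncomputable def dta2 {M : Set unitInterval} {F : ℕ → Set unitInterval} {t0 : unitInterval}
    (hF : ∀ n, IsClosed (F n)) (hM : M = ⋃ n, F n) : Dta where
  σ := ContinuousMap.const _ 1
  φ := 0
  D := DD M F t0 (1/2)
  E := ⊥
  U := ∅
  hE := by
    have : ((⊥ : Submodule ℝ C(unitInterval, ℝ)) : Set C(unitInterval, ℝ)) = {0} := Submodule.bot_coe
    rw [this]; exact isClosed_singleton
  hφ0 := fun _ => le_rfl
  hφ1 := fun _ => by change (0:ℝ) ≤ 1/4; norm_num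
  hφU := fun _ _ => rfl
  E0 := fun x hx => by rw [(Submodule.mem_bot ℝ).mp hx]; rfl
  E1 := fun x hx => by
    obtain ⟨p, hp⟩ := DD3 (M := M) (F := F) (t0 := t0) (r := 1/2) (by norm_num) le_rfl 1 zero_le_one le_rfl
    exact ⟨p, by rw [(Submodule.mem_bot ℝ).mp hx]; simp, hp.ge⟩
  E2 := fun _ _ => rfl
  E3 := fun _ _ => Filter.Eventually.of_forall fun _ => rfl
  E4 := fun t ht => absurd ht (Set.notMem_empty t)
  D0 := DD0 (by norm_num)
  D1 := DD1 hF (by norm_num)
  D2 := fun m t _ d hd => DD2 hF hM (by norm_num) m t d hd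
  D3 := DD3 (by norm_num) le_rfl

/-- **Theorem** -/
theorem exists_sub (M : Set unitInterval) (hne : M.Nonempty) (F : ℕ → Set unitInterval)
    (hF : ∀ n, IsClosed (F n)) (hM : M = ⋃ n, F n) :
    ∃ X : Submodule ℝ C(unitInterval, ℝ), IsClosed (X : Set C(unitInterval, ℝ)) ∧ Omega X = M ∧ ¬ IsCompl X := by
  obtain ⟨t0, ht0⟩ := hne
  rcases (Uo M t0).eq_empty_or_nonempty with hU | ⟨p1, hp1⟩
  · refine ⟨_, main (dta2 (t0 := t0) hF hM) M fun t => ?_⟩
    rw [mem_iff hM ht0, hU]
    change _ ↔ t ∈ (∅ : Set unitInterval) ∨ ∃ m, DD M F t0 (1/2) m t = 0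
    constructor
    · rintro (h | ⟨m, h⟩)
      · exact absurd h (Set.notMem_empty t)
      · exact Or.inr ⟨m+1, (DD_succ_iff hF m t).mpr h⟩
    · rintro (h | ⟨m, h⟩)
      · exact absurd h (Set.notMem_empty t)
      · cases m with
        | zero => exact Or.inr ⟨0, Or.inr ((DD_zero_iff hF (by norm_num) t).mp h)⟩
        | succ m => exact Or.inr ⟨m, (DD_succ_iff hF m t).mp h⟩
  · obtain ⟨ε, hε, hball⟩ := Metric.isOpen_iff.mp Uo_open p1 hp1
    set ρ := min (ε / 2) (1/2) with hρ
    have hρpos : 0 < ρ := by positivity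
    have h1 : ∀ t : unitInterval, |(t:ℝ) - p1| ≤ ρ → t ∈ Uo M t0 := by
      intro t ht
      apply hball
      rw [Metric.mem_ball, dist_unit]
      have : ρ ≤ ε / 2 := min_le_left _ _
      linarith
    have hpt : ρ < |(t0:ℝ) - p1| := by
      by_contra hcon
      exact (h1 t0 (not_lt.mp hcon)).2 rfl
    set r := min (|(t0:ℝ) - p1| - ρ) (1/2) with hr
    have hrpos : 0 < r := lt_min (by linarith) (by norm_num)
    have h2 : ∀ t : unitInterval, |(t:ℝ) - p1| < ρ → r ≤ |(t:ℝ) - t0| := by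
      intro t ht
      refine (min_le_left _ _).trans ?_
      have := abs_sub_le (t0:ℝ) t p1
      rw [abs_sub_comm (t0:ℝ) t] at this
      linarith
    refine ⟨_, main (dta1 (t0 := t0) (p1 := p1) hF hM hρpos (min_le_right _ _) hrpos (min_le_right _ _) h1 h2) M
      fun t => ?_⟩
    rw [mem_iff hM ht0]
    change _ ↔ t ∈ Uo M t0 ∨ ∃ m, DD M F t0 r m t = 0
    constructor
    · rintro (h | ⟨m, h⟩)
      · exact Or.inl h
      · exact Or.inr ⟨m+1, (DD_succ_iff hF m t).mpr h⟩
    · rintro (h | ⟨m, h⟩)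
      · exact Or.inl h
      · cases m with
        | zero => exact Or.inr ⟨0, Or.inr ((DD_zero_iff hF hrpos t).mp h)⟩
        | succ m => exact Or.inr ⟨m, (DD_succ_iff hF m t).mp h⟩

end Pool.Agent.R279.OS
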